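import Pool.Agent.Lib.H74S.Geo

set_option autoImplicit false

open Filter Topology Set MeasureTheory
open scoped ContDiff

namespace Pool.Agent.Lib.H74S

open Pool.Agent.Lib.PenroseSph

variable {F r : ℝ × ℝ → ℝ} {Q : Set (ℝ × ℝ)} {a : ℝ} {T : E3 → ℝ}

/-- Contractions of `nv`, `tv`, `pv`, and the metric in this notation.
Proof: write sums over `Fin 4` out (Fin.sum_univ_four), `sp p = (p 1, p 2, p 3)`, `‖sp p‖^2 = p 1^2 + p 2^2 + p 3^2`
(EuclideanSpace.norm_sq_eq or norm_sq_eq of PenroseSph), `field_simp`, `linear_combination`. -/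
theorem A0 {p : E4} (hp : sp p ≠ 0) :
    (∑ b, nv p b * nv p b = 1) ∧ (∑ b, nv p b * tv b = 0) ∧ (∑ b : Fin 4, tv b * tv b = 1) ∧
    (∀ b, ∑ c, pv p b c * nv p c = 0) ∧ (∀ b, ∑ c, pv p b c * tv c = 0) ∧ (∀ b c, pv p b c = pv p c b) ∧
    (∀ b d, ∑ c, pv p b c * pv p c d = pv p b d) ∧ (∑ b, pv p b b = 2) ∧
    (∀ b c, (if b = c then (1 : ℝ) else 0) = tv b * tv c + nv p b * nv p c + pv p b c) := by
  sorry

end Pool.Agent.Lib.H74S
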