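import Pool.Agent.Lib.H74S.Geo

set_option autoImplicit false

open Filter Topology Set MeasureTheory
open scoped ContDiff

namespace Pool.Agent.Lib.H74S

open Pool.Agent.Lib.PenroseSph

variable {F r : ℝ × ℝ → ℝ} {Q : Set (ℝ × ℝ)} {a : ℝ} {T : E3 → ℝ}

/-- The metric in the notation of `Geo`. Proof: unfold, cases `a = 0`, `b = 0`. -/
theorem A0G (F r : ℝ × ℝ → ℝ) (p : E4) (b c : Fin 4) :
    sphG F r p b c = F (qp p) * (nv p b * nv p c - tv b * tv c) + Bf r (qp p) * pv p b c := by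
  sorry

/-- Symmetry. -/
theorem A0S (F r : ℝ × ℝ → ℝ) (p : E4) (b c : Fin 4) : sphG F r p b c = sphG F r p c b := by
  sorry

end Pool.Agent.Lib.H74S
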