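import Pool.Agent.Lib.H74S.Geo

set_option autoImplicit false

open Filter Topology Set MeasureTheory
open scoped ContDiff

namespace Pool.Agent.Lib.H74S

open Pool.Agent.Lib.PenroseSph

variable {F r : ℝ × ℝ → ℝ} {Q : Set (ℝ × ℝ)} {a : ℝ} {T : E3 → ℝ}

/-- Derivatives of functions of `(t, ρ)` and of `nv`, `pv`.
Proof: `q ↦ (q 0, ‖sp q‖)` is differentiable at `p`: `sp` is linear and continuous, the norm of `E3` is differentiable away from 0
(lemma hasFDerivAt_norm' of PenroseSph.Calc: derivative `‖x‖⁻¹ • innerSL ℝ x`), so its derivative in the direction of the k-th coordinate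
vector is `(tv k, nv p k)`; chain rule and linearity: `fderiv f q (s, t) = s * fderiv f q (1,0) + t * fderiv f q (0,1)`. For `nv`: quotient rule
`∂_k (p_b / ρ) = δ_kb / ρ - p_b n_k / ρ^2 = pv k b / ρ` (for `b, k ≠ 0`; 0 if `b = 0` or `k = 0`). -/
theorem A1 {f : ℝ × ℝ → ℝ} {p : E4} (hp : sp p ≠ 0) (hf : DifferentiableAt ℝ f (qp p)) (k : Fin 4) :
    DifferentiableAt ℝ (fun q : E4 => f (qp q)) p ∧
      pd4 k (fun q : E4 => f (qp q)) p = tv k * fderiv ℝ f (qp p) (1, 0) + nv p k * fderiv ℝ f (qp p) (0, 1) := by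
  sorry

theorem A1N {p : E4} (hp : sp p ≠ 0) (k b : Fin 4) :
    DifferentiableAt ℝ (fun q : E4 => nv q b) p ∧ pd4 k (fun q : E4 => nv q b) p = pv p k b / ‖sp p‖ := by
  sorry

end Pool.Agent.Lib.H74S
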