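import Pool.Agent.Lib.H74S.Geo

set_option autoImplicit false

open Filter Topology Set MeasureTheory
open scoped ContDiff

namespace Pool.Agent.Lib.H74S

open Pool.Agent.Lib.PenroseSph

variable {F r : ℝ × ℝ → ℝ} {Q : Set (ℝ × ℝ)} {a : ℝ} {T : E3 → ℝ}

/-- The relation between the derivatives of `Bf r` and of `r`. Proof: quotient rule, at `q` with `0 < q.2`. -/
theorem A1B {q : ℝ × ℝ} (hq : 0 < q.2) (hr : DifferentiableAt ℝ r q) : DifferentiableAt ℝ (Bf r) q ∧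
    fderiv ℝ (Bf r) q (1, 0) = 2 * r q * fderiv ℝ r q (1, 0) / q.2 ^ 2 ∧
    fderiv ℝ (Bf r) q (0, 1) = 2 * r q * fderiv ℝ r q (0, 1) / q.2 ^ 2 - 2 * r q ^ 2 / q.2 ^ 3 := by
  sorry

end Pool.Agent.Lib.H74S
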