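import Pool.Agent.Lib.H74S.A0
import Pool.Agent.Lib.H74S.A0G

set_option autoImplicit false

open Filter Topology Set MeasureTheory
open scoped ContDiff

namespace Pool.Agent.Lib.H74S

open Pool.Agent.Lib.PenroseSph

variable {F r : ℝ × ℝ → ℝ} {Q : Set (ℝ × ℝ)} {a : ℝ} {T : E3 → ℝ}

/-- The inverse metric.
Proof: Matrix.inv_eq_right_inv; the product of the two expressions is the identity by the contractions `A0` (last clause: the identity
matrix is `tv tv + nv nv + pv`). The determinant is a unit since the matrix has a right inverse (Matrix.isUnit_det_of_right_inverse). -/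
theorem A2 {p : E4} (hp : sp p ≠ 0) (hF : 0 < F (qp p)) (hr : 0 < r (qp p)) :
    IsUnit (sphG F r p).det ∧ ∀ b c, (sphG F r p)⁻¹ b c =
      (nv p b * nv p c - tv b * tv c) / F (qp p) + pv p b c / Bf r (qp p) := by
  sorry

end Pool.Agent.Lib.H74S
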