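import Pool.Agent.Lib.H74S.A0
import Pool.Agent.Lib.H74S.A0G
import Pool.Agent.Lib.H74S.A1

set_option autoImplicit false

open Filter Topology Set MeasureTheory
open scoped ContDiff

namespace Pool.Agent.Lib.H74S

open Pool.Agent.Lib.PenroseSph

variable {F r : ℝ × ℝ → ℝ} {Q : Set (ℝ × ℝ)} {a : ℝ} {T : E3 → ℝ}

/-- First derivatives of the metric.
Proof: by `A0G`, the product rule, `A1` for `F` and `Bf r`, `A1N`, and for `pv`: `pv p b c = δ_bc - tv b tv c - nv p b nv p c`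
(`A0`, near `p`), so its derivative is `- (pv k b * nv c + nv b * pv k c) / ρ`. -/
theorem A3 {p : E4} (hp : sp p ≠ 0) (hF : DifferentiableAt ℝ F (qp p)) (hB : DifferentiableAt ℝ (Bf r) (qp p))
    (k b c : Fin 4) : DifferentiableAt ℝ (fun q => sphG F r q b c) p ∧ pd4 k (fun q => sphG F r q b c) p =
      (tv k * fderiv ℝ F (qp p) (1, 0) + nv p k * fderiv ℝ F (qp p) (0, 1)) * (nv p b * nv p c - tv b * tv c)
      + (tv k * fderiv ℝ (Bf r) (qp p) (1, 0) + nv p k * fderiv ℝ (Bf r) (qp p) (0, 1)) * pv p b c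
      + (F (qp p) - Bf r (qp p)) / ‖sp p‖ * (pv p k b * nv p c + pv p k c * nv p b) := by
  sorry

end Pool.Agent.Lib.H74S
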