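import Pool.Agent.Lib.H74S.A2
import Pool.Agent.Lib.H74S.A3

set_option autoImplicit false

open Filter Topology Set MeasureTheory
open scoped ContDiff

namespace Pool.Agent.Lib.H74S

open Pool.Agent.Lib.PenroseSph

variable {F r : ℝ × ℝ → ℝ} {Q : Set (ℝ × ℝ)} {a : ℝ} {T : E3 → ℝ}

/-- The Christoffel symbols.
Proof: insert `A3` and `A2` into `chr4`. With `F_k = tv k F_t + nv k F_ρ`, `B_k` similarly, the lower index version is
`Γ_(d,bc) = (1/2) [F_b (n_c n_d - t_c t_d) + F_c (n_b n_d - t_b t_d) - F_d (n_b n_c - t_b t_c)] + (1/2) [B_b π_cd + B_c π_bd - B_d π_bc]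
+ ((F - B)/ρ) π_bc n_d` (the six terms with `(F - B)/ρ` combine), then contract with the inverse metric using `A0`:
`(n_e n_d - t_e t_d)(n_c n_d - t_c t_d) = n_e n_c + t_e t_c`, `(n_e n_d - t_e t_d) F_d = n_e F_ρ - t_e F_t`, `π_ed π_cd = π_ec`, `π_ed F_d = 0`. -/
theorem A3C {p : E4} (hp : sp p ≠ 0) (hF0 : 0 < F (qp p)) (hr0 : 0 < r (qp p)) (hF : DifferentiableAt ℝ F (qp p))
    (hB : DifferentiableAt ℝ (Bf r) (qp p)) (e b c : Fin 4) : chr4 (sphG F r) e b c p =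
      1 / (2 * F (qp p)) * ((tv b * fderiv ℝ F (qp p) (1, 0) + nv p b * fderiv ℝ F (qp p) (0, 1)) * (nv p c * nv p e + tv c * tv e)
        + (tv c * fderiv ℝ F (qp p) (1, 0) + nv p c * fderiv ℝ F (qp p) (0, 1)) * (nv p b * nv p e + tv b * tv e)
        - (nv p e * fderiv ℝ F (qp p) (0, 1) - tv e * fderiv ℝ F (qp p) (1, 0)) * (nv p b * nv p c - tv b * tv c))
      + 1 / (2 * Bf r (qp p)) * ((tv b * fderiv ℝ (Bf r) (qp p) (1, 0) + nv p b * fderiv ℝ (Bf r) (qp p) (0, 1)) * pv p c e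
        + (tv c * fderiv ℝ (Bf r) (qp p) (1, 0) + nv p c * fderiv ℝ (Bf r) (qp p) (0, 1)) * pv p b e)
      - 1 / (2 * F (qp p)) * (nv p e * fderiv ℝ (Bf r) (qp p) (0, 1) - tv e * fderiv ℝ (Bf r) (qp p) (1, 0)) * pv p b c
      + (F (qp p) - Bf r (qp p)) / (‖sp p‖ * F (qp p)) * pv p b c * nv p e := by
  sorry

end Pool.Agent.Lib.H74S
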