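import Pool.Agent.Lib.H74S.Geo

set_option autoImplicit false

open Filter Topology Set MeasureTheory
open scoped ContDiff

namespace Pool.Agent.Lib.H74S

open Pool.Agent.Lib.PenroseSph

variable {F r : ℝ × ℝ → ℝ} {Q : Set (ℝ × ℝ)} {a : ℝ} {T : E3 → ℝ}

/-- The embedding and its tangent vectors, explicitly.
Proof: `emb T y = ![T y, y 0, y 1, y 2]`; `pd_coord` of PenroseSph.Calc; near x the function `y ↦ tang T j y 0` equals `pd j T`
and the other components are constant (T is differentiable near x). `sp (emb T x) = x` by extensionality. -/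
theorem A4 {x : E3} (hT : ContDiffAt ℝ ∞ T x) (i j : Fin 3) :
    (tang T i x 0 = pd i T x ∧ ∀ k : Fin 3, tang T i x k.succ = if k = i then 1 else 0) ∧
    (pd i (fun y => tang T j y 0) x = pd i (pd j T) x ∧ ∀ k : Fin 3, pd i (fun y => tang T j y k.succ) x = 0) ∧
    pd i (pd j T) x = pd j (pd i T) x ∧ (∀ b, DifferentiableAt ℝ (fun y => tang T j y b) x) ∧
    (∀ b, DifferentiableAt ℝ (fun y => emb T y b) x) := by
  sorry

theorem A4E (T : E3 → ℝ) (x : E3) : sp (emb T x) = x ∧ qp (emb T x) = pt T x ∧ nv (emb T x) 0 = 0 ∧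
    ∀ k : Fin 3, nv (emb T x) k.succ = x k / ‖x‖ := by
  sorry

/-- The conormal annihilates the tangent vectors. -/
theorem A4N {x : E3} (hT : ContDiffAt ℝ ∞ T x) (i : Fin 3) : ∑ b, conorm T x b * tang T i x b = 0 := by
  sorry

end Pool.Agent.Lib.H74S
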