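import Pool.Agent.Lib.H74S.A0G
import Pool.Agent.Lib.H74S.A4

set_option autoImplicit false

open Filter Topology Set MeasureTheory
open scoped ContDiff

namespace Pool.Agent.Lib.H74S

open Pool.Agent.Lib.PenroseSph

variable {F r : ℝ × ℝ → ℝ} {Q : Set (ℝ × ℝ)} {a : ℝ} {T : E3 → ℝ}

/-- The induced metric, explicitly. Proof: `A0G`, `A4`, `A4E`, sums over Fin 4 written out. -/
theorem A5 {x : E3} (hx : x ≠ 0) (hT : ContDiffAt ℝ ∞ T x) (i j : Fin 3) : indM (sphG F r) T x i j =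
    F (pt T x) * (x i / ‖x‖ * (x j / ‖x‖) - pd i T x * pd j T x)
      + Bf r (pt T x) * ((if i = j then 1 else 0) - x i / ‖x‖ * (x j / ‖x‖)) := by
  sorry

end Pool.Agent.Lib.H74S
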