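import Pool.Agent.Lib.H74S.A5

set_option autoImplicit false

open Filter Topology Set MeasureTheory
open scoped ContDiff

namespace Pool.Agent.Lib.H74S

open Pool.Agent.Lib.PenroseSph

variable {F r : ℝ × ℝ → ℝ} {Q : Set (ℝ × ℝ)} {a : ℝ} {T : E3 → ℝ}

/-- A spacelike slice is steep in the radial direction: test the induced metric with the vector `x`: by `A5`
`∑ indM i j x_i x_j = F (‖x‖^2 - (∑ x_i pd i T)^2) > 0` (the second part of `A5` vanishes on `x`). -/
theorem A6 (hST : SphSpacetime F r Q) (hM : Slice F r Q a T) {x : E3} (hx : a < ‖x‖) :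
    |∑ i, x i * pd i T x| < ‖x‖ := by
  sorry

end Pool.Agent.Lib.H74S
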