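import Pool.Agent.Lib.H74S.A2
import Pool.Agent.Lib.H74S.A3
import Pool.Agent.Lib.H74S.A5

set_option autoImplicit false

open Filter Topology Set MeasureTheory
open scoped ContDiff

namespace Pool.Agent.Lib.H74S

open Pool.Agent.Lib.PenroseSph

variable {F r : ℝ × ℝ → ℝ} {Q : Set (ℝ × ℝ)} {a : ℝ} {T : E3 → ℝ}

/-- The conormal of a spacelike slice is timelike, and all standing assumptions hold.
Proof of `lapse`: by `A2`, `A4E` the inverse metric gives `- G⁻¹(ν,ν) = 1/F - s`, `s = (∑ n_i T_i)^2 / F + (∑ T_i^2 - (∑ n_i T_i)^2) / B >= 0`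
(`n = x/‖x‖`, `T_i = pd i T x`, Cauchy-Schwarz). If all `T_i = 0` it is `1/F > 0`. Otherwise `s > 0`; test `spacelike` with the vector
`v_i = (∑ n_k T_k) n_i / F + (T_i - (∑ n_k T_k) n_i) / B`, which is nonzero since `∑ v_i T_i = s > 0`: by `A5` the value is `s - F s^2 > 0`, so `1/F - s > 0`.
The other fields: `A0S`, `A3` (with differentiability of `Bf r` from that of `r`, `0 < ‖x‖`), `A2`, `smooth` at interior points. -/
theorem A7 (hST : SphSpacetime F r Q) (hM : Slice F r Q a T) {x : E3} (hx : a < ‖x‖) : Geom (sphG F r) T x := by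
  sorry

end Pool.Agent.Lib.H74S
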