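import Pool.Agent.Lib.H74S.Red

set_option autoImplicit false

open Filter Topology Set MeasureTheory
open scoped ContDiff

namespace Pool.Agent.Lib.H74S

open Pool.Agent.Lib.PenroseSph

variable {F r : ℝ × ℝ → ℝ} {Q : Set (ℝ × ℝ)} {a : ℝ} {T : E3 → ℝ}

/-- Second order comparison at a point where the set `Om` touches the superlevel set of `φ` from inside.
Proof: `w x = 0` (lemma DefFun.zero of PenroseSph.Touch, or directly). Let `A v = ∑ i, v i * pd i φ x`, `B v = ∑ i, v i * pd i w x`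
(linear, both nonzero), `A2 v`, `B2 v` the quadratic forms of the second derivatives. Choose `n` with `A n = -1`. (a) along `x + t n`, `t > 0` small,
`φ < φ x`, so the points are not in `Om`, `w >= 0`, hence `B n >= 0`. (b) let `A e = 0` and `κ > A2 e`; along `c t = x + t e + (t^2/2) κ n` Taylor's formula
gives `φ (c t) = φ x + (t^2/2)(A2 e - κ) + o(t^2) < φ x` for small `t ≠ 0`, so `c t ∉ Om`, `w (c t) >= 0 = w (c 0)`: the function `t ↦ w (c t)` has a local
minimum at 0, so `B e = 0` and (second derivative, lemma second_deriv_nonneg of PenroseSph.Touch) `B2 e + κ B n >= 0`; `κ → A2 e`: `B2 e + A2 e * B n >= 0`. From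
`A e = 0 → B e = 0`: `B = - (B n) A` and `B n ≠ 0` (otherwise `B = 0`), so `B n > 0`. With `λ = 1 / B n`: `A = - λ B` and `A2 e + λ B2 e >= 0` for
`B e = 0`. (For the curves compare `tangential` in PenroseSph.Touch, which is the special case `φ = - ‖y‖`.) -/
theorem B1 {Om : Set E3} {w φ : E3 → ℝ} {x : E3} (hw : DefFun Om w x) (hx : x ∈ frontier Om) (hφ : ContDiffAt ℝ 2 φ x)
    (hφ0 : fderiv ℝ φ x ≠ 0) (hout : ∀ᶠ y in 𝓝 x, φ y < φ x → y ∉ Om) :
    ∃ l : ℝ, 0 < l ∧ (∀ i, pd i φ x = -l * pd i w x) ∧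
      ∀ v : Fin 3 → ℝ, ∑ i, v i * pd i w x = 0 →
        0 ≤ ∑ i, ∑ j, (pd i (pd j φ) x + l * pd i (pd j w) x) * v i * v j := by
  sorry

end Pool.Agent.Lib.H74S
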