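import Pool.Agent.Lib.H74S.Red

set_option autoImplicit false

open Filter Topology Set MeasureTheory
open scoped ContDiff

namespace Pool.Agent.Lib.H74S

open Pool.Agent.Lib.PenroseSph

variable {F r : ℝ × ℝ → ℝ} {Q : Set (ℝ × ℝ)} {a : ℝ} {T : E3 → ℝ}

/-- Linear algebra: the trace of a form which is nonnegative on the plane `d = 0` over this plane.
Proof: let `h = g⁻¹` (positive definite, symmetric), `s = ∑ h d d > 0`, `n_i = ∑ h i j d j / √s`. For `e_k = ` the k-th row of a square root: write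
`h = Cᵀ C` (Matrix.PosSemidef.. or Cholesky/spectral theorem), `c_k` the rows of `C`, `b_k = ∑ i, C k i d i`, so `∑ b_k^2 = s` and `n_i = ∑ k, b_k C k i / √s`.
The matrix `P i j = h i j - n i n j` satisfies `∑ P i j y_i y_j = |C y|^2 - (b·C y)^2 / s >= 0` (Cauchy-Schwarz), so it is positive semidefinite
and symmetric, hence `P = Dᵀ D`; the rows `e_k` of `D` satisfy `∑_k (e_k·d)^2 = ∑ P d d = s - s = 0`, so `e_k·d = 0` and
`∑ P i j A i j = ∑_k A(e_k, e_k) >= 0`. -/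
theorem B2 (g : Matrix (Fin 3) (Fin 3) ℝ) (hs : ∀ i j, g i j = g j i)
    (hg : ∀ v : Fin 3 → ℝ, v ≠ 0 → 0 < ∑ i, ∑ j, g i j * v i * v j) (d : Fin 3 → ℝ) (hd : d ≠ 0)
    (A : Fin 3 → Fin 3 → ℝ) (hA : ∀ v : Fin 3 → ℝ, ∑ i, v i * d i = 0 → 0 ≤ ∑ i, ∑ j, A i j * v i * v j) :
    0 < ∑ i, ∑ j, g⁻¹ i j * d i * d j ∧
    0 ≤ ∑ i, ∑ j, (g⁻¹ i j - (∑ k, g⁻¹ i k * d k) / Real.sqrt (∑ i, ∑ j, g⁻¹ i j * d i * d j)
      * ((∑ k, g⁻¹ j k * d k) / Real.sqrt (∑ i, ∑ j, g⁻¹ i j * d i * d j))) * A i j := by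
  sorry

end Pool.Agent.Lib.H74S
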