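import Pool.Agent.Lib.H74S.BQ

set_option autoImplicit false

open Filter Topology Set MeasureTheory
open scoped ContDiff

namespace Pool.Agent.Lib.H74S

open Pool.Agent.Lib.PenroseSph

variable {F r : ℝ × ℝ → ℝ} {Q : Set (ℝ × ℝ)} {a : ℝ} {T : E3 → ℝ}

/-- The trace of this Hessian over the tangent plane of the level set of `φ = σ T - |x|`.
Proof: let `g = indM`, `φ_i = pd i φ`, `|dφ|^2 = ∑ g⁻¹ φ φ > 0` (`BN`), `m_i = - ∑ g⁻¹ i j φ_j / |dφ|`, `P i j = g⁻¹ i j - m_i m_j` (symmetric). Then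
`∑ P i j φ_j = 0`. Insert `BQ`: the term with `φ_i φ_j` vanishes. For the term with `B (δ_ij - n_i n_j)`: by `A5` it is
`g i j - F (n_i n_j - T_i T_j)`, and `n_i n_j - T_i T_j = (1/2)(φ_i ψ_j + ψ_i φ_j)`, `ψ_i = - σ T_i - n_i` (as `φ_i = σ T_i - n_i`, `σ^2 = 1`), so its
trace with `P` is `∑ P i j g i j = 3 - 1 = 2`. -/
theorem BT (hST : SphSpacetime F r Q) (hM : Slice F r Q a T) {x : E3} (hx : a < ‖x‖) {σ : ℝ} (hσ : σ = 1 ∨ σ = -1)
    (P : Fin 3 → Fin 3 → ℝ) (m : Fin 3 → ℝ) (dn : ℝ) (hdn : dn = σ * ∑ b, fv σ (emb T x) b * unitN (sphG F r) T x b)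
    (hm : ∀ i, m i = -(∑ j, (indM (sphG F r) T x)⁻¹ i j * pd j (fun y => σ * T y - ‖y‖) x) / dn)
    (hP : ∀ i j, P i j = (indM (sphG F r) T x)⁻¹ i j - m i * m j) :
    ∑ i, ∑ j, P i j * (pd i (pd j (fun y => σ * T y - ‖y‖)) x
        - ∑ k, chr (indM (sphG F r) T) k i j x * pd k (fun y => σ * T y - ‖y‖) x) =
      -(2 * (σ * fderiv ℝ r (pt T x) (1, 0) + fderiv ℝ r (pt T x) (0, 1)) / (F (pt T x) * r (pt T x)))
        + σ * dn * ∑ i, ∑ j, P i j * sff (sphG F r) T x i j := by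
  sorry

end Pool.Agent.Lib.H74S
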