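import Pool.Agent.Lib.H74S.B1
import Pool.Agent.Lib.H74S.B2
import Pool.Agent.Lib.H74S.BT

set_option autoImplicit false

open Filter Topology Set MeasureTheory
open scoped ContDiff

namespace Pool.Agent.Lib.H74S

open Pool.Agent.Lib.PenroseSph

variable {F r : ℝ × ℝ → ℝ} {Q : Set (ℝ × ℝ)} {a : ℝ} {T : E3 → ℝ}

/-- The horizon condition at a point where `σ T - |x|` is minimal on the surface.
Proof: let `g = indM (sphG F r) T`, `φ y = σ T y - ‖y‖`. By `B1` (`φ` is smooth near x, `dφ ≠ 0` by `BN` (2), (3)) there is `l > 0` with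
`φ_i = - l w_i` and `A(v,v) >= 0` for `A_ij = pd i (pd j φ) + l pd i (pd j w)`, `∑ v_i w_i = 0`. `B2` with `d = dw`: `∑ P_ij A_ij >= 0`, where
`P_ij = g⁻¹ i j - m_i m_j`, `m = normal g w`. As `l w_k = - φ_k`: `l ∑ P_ij (pd i (pd j w) - ∑ chr k i j w_k) >= - ∑ P_ij (pd i (pd j φ) - ∑ chr k i j φ_k)`. The norm
`|dw| = gradNorm g w x`, `l |dw| = |dφ| = dn := σ df(N)` (`BN`), `m_i = - ∑ g⁻¹ i j φ_j / dn`. So by `BT`
`l |dw| meanCurv g w x >= 2 (σ r_t + r_ρ)/(F r) - σ dn ∑ P_ij sff_ij`, that is `meanCurv g w x >= 2 (σ r_t + r_ρ)/(F r dn) - σ trLevel g sff w x`. With the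
hypothesis `meanCurv g w x <= - σ trLevel g sff w x` this gives `σ r_t + r_ρ <= 0`. -/
theorem B8 (hST : SphSpacetime F r Q) (hM : Slice F r Q a T) {x : E3} (hx : a < ‖x‖) {σ : ℝ} (hσ : σ = 1 ∨ σ = -1)
    {Om : Set E3} {w : E3 → ℝ} (hw : DefFun Om w x) (hfr : x ∈ frontier Om)
    (hout : ∀ᶠ y in 𝓝 x, σ * T y - ‖y‖ < σ * T x - ‖x‖ → y ∉ Om)
    (hH : meanCurv (indM (sphG F r) T) w x ≤ -σ * trLevel (indM (sphG F r) T) (sff (sphG F r) T) w x) :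
    σ * fderiv ℝ r (pt T x) (1, 0) + fderiv ℝ r (pt T x) (0, 1) ≤ 0 := by
  sorry

end Pool.Agent.Lib.H74S
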