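import Pool.Agent.Lib.H74S.A3C
import Pool.Agent.Lib.H74S.A1B

set_option autoImplicit false

open Filter Topology Set MeasureTheory
open scoped ContDiff

namespace Pool.Agent.Lib.H74S

open Pool.Agent.Lib.PenroseSph

variable {F r : ℝ × ℝ → ℝ} {Q : Set (ℝ × ℝ)} {a : ℝ} {T : E3 → ℝ}

/-- The Hessian of `σ t - ρ` (σ = 1 or -1): the null cones are shear free.
Proof: with `f = fv σ p`, contract `A3C` with `f_e` (`∑ f_e n_e = -1`, `∑ f_e t_e = σ`, `∑ f_e π_be = 0`):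
`∑ Γ^e_bc f_e = (1/2F) [F_b f_c + F_c f_b + (F_ρ + σ F_t)(n_b n_c - t_b t_c)] + (1/2F)(B_ρ + σ B_t) π_bc - ((F - B)/(ρ F)) π_bc`,
where `F_b = t_b F_t + n_b F_ρ`; and `F_b f_c + F_c f_b + (F_ρ + σ F_t)(n_b n_c - t_b t_c) = (σ F_t - F_ρ) f_b f_c` because `σ^2 = 1`.
With `A1B`: `B_ρ + σ B_t + 2 B / ρ = 2 r (r_ρ + σ r_t) / ρ^2`, `B = r^2 / ρ^2`. -/
theorem BH {p : E4} (hp : sp p ≠ 0) (hF0 : 0 < F (qp p)) (hr0 : 0 < r (qp p)) (hF : DifferentiableAt ℝ F (qp p))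
    (hr : DifferentiableAt ℝ r (qp p)) {σ : ℝ} (hσ : σ = 1 ∨ σ = -1) (b c : Fin 4) :
    -(pv p b c / ‖sp p‖) - ∑ e, chr4 (sphG F r) e b c p * fv σ p e =
      -((σ * fderiv ℝ F (qp p) (1, 0) - fderiv ℝ F (qp p) (0, 1)) / (2 * F (qp p))) * (fv σ p b * fv σ p c)
      - (σ * fderiv ℝ r (qp p) (1, 0) + fderiv ℝ r (qp p) (0, 1)) / (F (qp p) * r (qp p)) * (Bf r (qp p) * pv p b c) := by
  sorry

end Pool.Agent.Lib.H74S
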