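import Pool.Agent.Lib.H74S.GS3

set_option autoImplicit false

open Filter Topology Set MeasureTheory
open scoped ContDiff

namespace Pool.Agent.Lib.H74S

open Pool.Agent.Lib.PenroseSph

variable {F r : ℝ × ℝ → ℝ} {Q : Set (ℝ × ℝ)} {a : ℝ} {T : E3 → ℝ}

/-- The inverse metric in terms of the tangential and normal parts. Proof: apply `GS3` to `Y b = (G)⁻¹ b c` (c fixed):
`∑ G b d * Y b * w d = w c` for every vector `w`. -/
theorem GS5 {G : Tens4} {x : E3} (hG : Geom G T x) (b c : Fin 4) : (G (emb T x))⁻¹ b c =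
    (∑ k, ∑ l, (indM G T x)⁻¹ k l * tang T k x b * tang T l x c) - unitN G T x b * unitN G T x c := by
  sorry

end Pool.Agent.Lib.H74S
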