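import Pool.Agent.Lib.H74S.A2
import Pool.Agent.Lib.H74S.A6
import Pool.Agent.Lib.H74S.A7
import Pool.Agent.Lib.H74S.GS5

set_option autoImplicit false

open Filter Topology Set MeasureTheory
open scoped ContDiff

namespace Pool.Agent.Lib.H74S

open Pool.Agent.Lib.PenroseSph

variable {F r : ℝ × ℝ → ℝ} {Q : Set (ℝ × ℝ)} {a : ℝ} {T : E3 → ℝ}

/-- The null function `φ = σ T - |x|` on the slice: its derivatives, and `dφ(N) = σ |dφ|`.
Proof: (1) `pd i φ x = σ T_i - x_i/‖x‖ = ∑ fv b * tang i b` (`A4`, `A4E`, derivative of the norm: pd of `‖y‖` is `x i / ‖x‖`).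
(2) contract `GS5` with `f_b f_c`, `f = fv σ (emb T x)`: the left side is `(1/F)((∑ n f)^2 - (∑ t f)^2) + (1/B) π(f,f) = (1 - σ^2)/F = 0` by `A2`, `A0`.
(3) `∑ f_b N_b = - G⁻¹(f, ν)/W = (σ - T_ρ)/(F W)` with `T_ρ = ∑ x_i pd i T / ‖x‖`, `|T_ρ| < 1` by `A6`, `W = nrm > 0`. -/
theorem BN (hST : SphSpacetime F r Q) (hM : Slice F r Q a T) {x : E3} (hx : a < ‖x‖) {σ : ℝ} (hσ : σ = 1 ∨ σ = -1) :
    (∀ i, pd i (fun y => σ * T y - ‖y‖) x = ∑ b, fv σ (emb T x) b * tang T i x b) ∧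
    (∑ i, ∑ j, (indM (sphG F r) T x)⁻¹ i j * pd i (fun y => σ * T y - ‖y‖) x * pd j (fun y => σ * T y - ‖y‖) x =
      (∑ b, fv σ (emb T x) b * unitN (sphG F r) T x b) ^ 2) ∧
    0 < σ * ∑ b, fv σ (emb T x) b * unitN (sphG F r) T x b := by
  sorry

end Pool.Agent.Lib.H74S
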