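import Pool.Agent.Lib.H74S.A4

set_option autoImplicit false

open Filter Topology Set MeasureTheory
open scoped ContDiff

namespace Pool.Agent.Lib.H74S

open Pool.Agent.Lib.PenroseSph

variable {F r : ℝ × ℝ → ℝ} {Q : Set (ℝ × ℝ)} {a : ℝ} {T : E3 → ℝ}

/-- Decomposition of a vector into its tangential and normal parts.
Proof: let `Z` be the difference of the two sides and `z_b = ∑ G b c Z_c`. With `N = unitN`: `∑ G b c N_c = - ν_b / W` (`ν = conorm`, `W = nrm > 0`),
so `G(N, tang l) = 0` by `A4N` and `G(N,N) = G⁻¹(ν,ν) / W^2 = -1`. Hence `∑ z_b tang l b = 0` for all `l` (indM is `G(tang, tang)`, invertible because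
positive definite) and `∑ z_b N_b = 0`. By `A4` the first gives `z_(l+1) = - z_0 pd l T`, that is `z = z_0 ν`; then `∑ z_b N_b = z_0 ∑ ν_b N_b = z_0 W`
gives `z_0 = 0`. So `z = 0` and, `G` being invertible, `Z = 0`. -/
theorem GS3 {G : Tens4} {x : E3} (hG : Geom G T x) (Y : E4) (e : Fin 4) : Y e =
    (∑ k, ∑ l, (indM G T x)⁻¹ k l * (∑ b, ∑ c, G (emb T x) b c * Y b * tang T l x c) * tang T k x e)
      - (∑ b, ∑ c, G (emb T x) b c * Y b * unitN G T x c) * unitN G T x e := by
  sorry

end Pool.Agent.Lib.H74S
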