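import Pool.Agent.Lib.H74S.GS2
import Pool.Agent.Lib.H74S.GS3

set_option autoImplicit false

open Filter Topology Set MeasureTheory
open scoped ContDiff

namespace Pool.Agent.Lib.H74S

open Pool.Agent.Lib.PenroseSph

variable {F r : ℝ × ℝ → ℝ} {Q : Set (ℝ × ℝ)} {a : ℝ} {T : E3 → ℝ}

/-- Gauss formula. Proof: apply `GS3` to `Y = DT G T x i j`. By `GS2` (and symmetry of G) the coefficients of the tangential part are
`∑ l, g⁻¹ k l * ∑ m, g l m * chr g m i j = chr g k i j`. In the normal part `∑ c, G b c * N c = - conorm b / nrm`, so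
`- G(Y, N) = (∑ b, conorm b * Y b) / nrm = sff i j`. -/
theorem GS4 {G : Tens4} {x : E3} (hG : Geom G T x) (i j : Fin 3) (e : Fin 4) :
    DT G T x i j e - ∑ k, chr (indM G T) k i j x * tang T k x e = sff G T x i j * unitN G T x e := by
  sorry

end Pool.Agent.Lib.H74S
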