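import Pool.Agent.Lib.H74S.BH
import Pool.Agent.Lib.H74S.BN
import Pool.Agent.Lib.H74S.GS4

set_option autoImplicit false

open Filter Topology Set MeasureTheory
open scoped ContDiff

namespace Pool.Agent.Lib.H74S

open Pool.Agent.Lib.PenroseSph

variable {F r : ℝ × ℝ → ℝ} {Q : Set (ℝ × ℝ)} {a : ℝ} {T : E3 → ℝ}

/-- The Hessian of `φ = σ T - |x|` with respect to the induced metric.
Proof: contract `GS4` with `f_e`, `f = fv σ (emb T x)`: `∑ f_e DT i j e - ∑ chr k i j * φ_k = sff i j * df(N)` by `BN` (1). By `A4`: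
`∑ f_e DT i j e = σ pd i (pd j T) + ∑ f_e Γ^e_bc tang i b tang j c`; `pd i (pd j φ) = σ pd i (pd j T) - (δ_ij - n_i n_j)/‖x‖` and
`δ_ij - n_i n_j = ∑ pv b c * tang i b * tang j c`. Insert `BH` at `p = emb T x`. -/
theorem BQ (hST : SphSpacetime F r Q) (hM : Slice F r Q a T) {x : E3} (hx : a < ‖x‖) {σ : ℝ} (hσ : σ = 1 ∨ σ = -1)
    (i j : Fin 3) : pd i (pd j (fun y => σ * T y - ‖y‖)) x
        - ∑ k, chr (indM (sphG F r) T) k i j x * pd k (fun y => σ * T y - ‖y‖) x =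
      -((σ * fderiv ℝ F (pt T x) (1, 0) - fderiv ℝ F (pt T x) (0, 1)) / (2 * F (pt T x)))
        * (pd i (fun y => σ * T y - ‖y‖) x * pd j (fun y => σ * T y - ‖y‖) x)
      - (σ * fderiv ℝ r (pt T x) (1, 0) + fderiv ℝ r (pt T x) (0, 1)) / (F (pt T x) * r (pt T x))
        * (Bf r (pt T x) * ((if i = j then 1 else 0) - x i / ‖x‖ * (x j / ‖x‖)))
      + sff (sphG F r) T x i j * ∑ b, fv σ (emb T x) b * unitN (sphG F r) T x b := by
  sorry

end Pool.Agent.Lib.H74S
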