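import Pool.Agent.Lib.H74S.Red

set_option autoImplicit false

open Filter Topology Set MeasureTheory
open scoped ContDiff

namespace Pool.Agent.Lib.H74S

open Pool.Agent.Lib.PenroseSph

variable {F r : ℝ × ℝ → ℝ} {Q : Set (ℝ × ℝ)} {a : ℝ} {T : E3 → ℝ}

/-- Along the rays the null coordinates are strictly monotone.
Proof: for `s >= 1` the function `s ↦ T (s x)` has the derivative `∑ i, x i * pd i T (s x)`, and by `steep` at `s x`,
`|∑ i, s x i * pd i T (s x)| < s ‖x‖`, so the derivative is in `(-‖x‖, ‖x‖)`. Hence `s ↦ T (s x) - s ‖x‖` is strictly decreasing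
and `s ↦ T (s x) + s ‖x‖` strictly increasing on `[1, ∞)` (strictMonoOn_of_deriv_pos), and `‖s x‖ = s ‖x‖`. -/
theorem C1 (hT : RSl Q a T) {x : E3} (hx : a < ‖x‖) {c : ℝ} (hc : 1 < c) :
    UU T (c • x) < UU T x ∧ VV T x < VV T (c • x) := by
  sorry

end Pool.Agent.Lib.H74S
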