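import Pool.Agent.Lib.H74S.C9U

set_option autoImplicit false

open Filter Topology Set MeasureTheory
open scoped ContDiff

namespace Pool.Agent.Lib.H74S

open Pool.Agent.Lib.PenroseSph

variable {F r : ℝ × ℝ → ℝ} {Q : Set (ℝ × ℝ)} {a : ℝ} {T : E3 → ℝ}

/-- The root depends continuously on the direction, and is invariant under scaling.
Proof: scaling: for `c > 0`, `(R (c x) / ‖c x‖) • (c x) = R (c x) • (x / ‖x‖)`, so `R (c x)` and `R x` are two solutions of
`s • n ∈ good`, `HH T u v (s • n) = δ` with `s > 0`; by the strict monotonicity `C9U` they are equal. Continuity at `x₀ ≠ 0`,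
`n₀ = x₀ / ‖x₀‖`: let `0 < η < R x₀` be so small that `(R x₀ - η) • n₀ ∈ good` (an open condition, and `R x₀ • n₀ ∈ good`). By `C9U`,
`HH ((R x₀ - η) n₀) < δ < HH ((R x₀ + η) n₀)`. By continuity of `HH` and openness of `good`, for `x` near `x₀`, with `n = x / ‖x‖`:
`(R x₀ ± η) n ∈ good`, `HH ((R x₀ - η) n) < δ < HH ((R x₀ + η) n)`. By `C9U` (if `R x <= R x₀ - η` then `δ = HH (R x n) <= HH ((R x₀ - η) n)`, a
contradiction, and similarly on the other side) `|R x - R x₀| < η`. -/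
theorem C10B (hT : RSl Q a T) {u v δ : ℝ} {R : E3 → ℝ} (hR : Root T a u v δ R) :
    (∀ x : E3, x ≠ 0 → ∀ c : ℝ, 0 < c → R (c • x) = R x) ∧ ∀ x : E3, x ≠ 0 → ContinuousAt R x := by
  have ha := hT.nonneg
  have hopen : IsOpen {x : E3 | a < ‖x‖} := isOpen_lt continuous_const continuous_norm
  have hTc : ∀ x : E3, a < ‖x‖ → ContinuousAt T x := fun x hx =>
    (hT.smooth.contDiffAt (hopen.mem_nhds hx)).continuousAt
  have hUc : ∀ x : E3, a < ‖x‖ → ContinuousAt (UU T) x := fun x hx => (hTc x hx).sub continuous_norm.continuousAt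
  have hVc : ∀ x : E3, a < ‖x‖ → ContinuousAt (VV T) x := fun x hx => (hTc x hx).add continuous_norm.continuousAt
  -- the key comparison
  have key : ∀ x : E3, x ≠ 0 → ∀ s : ℝ, s • (‖x‖⁻¹ • x) ∈ good T a u v → 0 < s →
      (HH T u v (s • (‖x‖⁻¹ • x)) < δ → s < R x) ∧ (δ < HH T u v (s • (‖x‖⁻¹ • x)) → R x < s) ∧
      (HH T u v (s • (‖x‖⁻¹ • x)) = δ → R x = s) := by
    intro x hx s hs hs0
    have hm := hR.mem x hx
    have he := hR.eq x hx
    have hp := hR.pos x hx
    have e : (R x / ‖x‖) • x = R x • (‖x‖⁻¹ • x) := by rw [smul_smul, div_eq_mul_inv]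
    rw [e] at hm he
    have h1 : s < R x → HH T u v (s • (‖x‖⁻¹ • x)) < δ := fun h => he ▸ (C9U hT hs0 h hs).2
    have h2 : R x < s → δ < HH T u v (s • (‖x‖⁻¹ • x)) := fun h => he ▸ (C9U hT hp h hm).2
    have h3 : R x = s → HH T u v (s • (‖x‖⁻¹ • x)) = δ := fun h => h ▸ he
    refine ⟨fun h => ?_, fun h => ?_, fun h => ?_⟩
    · rcases lt_trichotomy s (R x) with h' | h' | h'
      · exact h'
      · have := h3 h'.symm; linarith
      · have := h2 h'; linarith
    · rcases lt_trichotomy s (R x) with h' | h' | h'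
      · have := h1 h'; linarith
      · have := h3 h'.symm; linarith
      · exact h'
    · rcases lt_trichotomy s (R x) with h' | h' | h'
      · have := h1 h'; linarith
      · exact h'.symm
      · have := h2 h'; linarith
  constructor
  · intro x hx c hc
    have hcx : c • x ≠ 0 := smul_ne_zero hc.ne' hx
    have e1 : ‖c • x‖⁻¹ • (c • x) = ‖x‖⁻¹ • x := by
      rw [norm_smul, Real.norm_eq_abs, abs_of_pos hc, smul_smul]
      congr 1
      have : ‖x‖ ≠ 0 := norm_ne_zero_iff.2 hx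
      field_simp
    have hk := key (c • x) hcx (R x)
    rw [e1] at hk
    have e : (R x / ‖x‖) • x = R x • (‖x‖⁻¹ • x) := by rw [smul_smul, div_eq_mul_inv]
    have hm := hR.mem x hx
    have he := hR.eq x hx
    rw [e] at hm he
    exact (hk hm (hR.pos x hx)).2.2 he
  · intro x₀ hx₀
    have hm := hR.mem x₀ hx₀
    have he := hR.eq x₀ hx₀
    have hp := hR.pos x₀ hx₀
    have e : (R x₀ / ‖x₀‖) • x₀ = R x₀ • (‖x₀‖⁻¹ • x₀) := by rw [smul_smul, div_eq_mul_inv]
    rw [e] at hm he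
    have hx0n : ‖x₀‖ ≠ 0 := norm_ne_zero_iff.2 hx₀
    have hgood_open : ∀ y : E3, y ∈ good T a u v → good T a u v ∈ 𝓝 y := by
      intro y hy
      have h1 : ∀ᶠ z in 𝓝 y, a < ‖z‖ ∧ UU T z < u ∧ v < VV T z :=
        (continuousAt_const.eventually_lt continuous_norm.continuousAt hy.1).and
          (((hUc y hy.1).eventually_lt continuousAt_const hy.2.1).and
            (continuousAt_const.eventually_lt (hVc y hy.1) hy.2.2))
      exact h1
    have hHc : ∀ y : E3, y ∈ good T a u v → ContinuousAt (HH T u v) y := by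
      intro y hy
      exact (continuousAt_const.sub (hUc y hy.1)).mul ((hVc y hy.1).sub continuousAt_const)
    -- η small
    have hev1 : ∀ᶠ s in 𝓝 (R x₀), s • (‖x₀‖⁻¹ • x₀) ∈ good T a u v := by
      have h1 : ContinuousAt (fun s : ℝ => s • (‖x₀‖⁻¹ • x₀)) (R x₀) := by fun_prop
      exact h1.eventually (hgood_open _ hm)
    obtain ⟨η₀, hη₀, hball⟩ := Metric.eventually_nhds_iff.1 hev1
    rw [Metric.continuousAt_iff']
    intro ε hε
    set η := min (min (η₀ / 2) (R x₀ / 2)) (ε / 2) with hη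
    have hη1 : η ≤ η₀ / 2 := (min_le_left _ _).trans (min_le_left _ _)
    have hη2 : η ≤ R x₀ / 2 := (min_le_left _ _).trans (min_le_right _ _)
    have hη3 : η ≤ ε / 2 := min_le_right _ _
    have hηp : 0 < η := by positivity
    have g1 : (R x₀ - η) • (‖x₀‖⁻¹ • x₀) ∈ good T a u v :=
      hball (by rw [Real.dist_eq, abs_lt]; constructor <;> linarith)
    have g2 : (R x₀ + η) • (‖x₀‖⁻¹ • x₀) ∈ good T a u v :=
      hball (by rw [Real.dist_eq, abs_lt]; constructor <;> linarith)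
    have l1 : HH T u v ((R x₀ - η) • (‖x₀‖⁻¹ • x₀)) < δ := by
      have := (C9U hT (s := R x₀ - η) (s' := R x₀) (by linarith) (by linarith) g1).2
      rwa [he] at this
    have l2 : δ < HH T u v ((R x₀ + η) • (‖x₀‖⁻¹ • x₀)) := by
      have := (C9U hT (s := R x₀) (s' := R x₀ + η) hp (by linarith) hm).2
      rwa [he] at this
    have hdir : ∀ s : ℝ, ContinuousAt (fun x : E3 => s • (‖x‖⁻¹ • x)) x₀ := by
      intro s
      have h1 : ContinuousAt (fun x : E3 => ‖x‖⁻¹) x₀ := continuous_norm.continuousAt.inv₀ hx0n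
      exact (h1.smul continuousAt_id).const_smul s
    have ev1 : ∀ᶠ x in 𝓝 x₀, (R x₀ - η) • (‖x‖⁻¹ • x) ∈ good T a u v :=
      (hdir (R x₀ - η)).eventually (hgood_open _ g1)
    have ev2 : ∀ᶠ x in 𝓝 x₀, (R x₀ + η) • (‖x‖⁻¹ • x) ∈ good T a u v :=
      (hdir (R x₀ + η)).eventually (hgood_open _ g2)
    have ev3 : ∀ᶠ x in 𝓝 x₀, HH T u v ((R x₀ - η) • (‖x‖⁻¹ • x)) < δ :=
      (ContinuousAt.comp (g := HH T u v) (f := fun x : E3 => (R x₀ - η) • (‖x‖⁻¹ • x)) (hHc _ g1)
        (hdir (R x₀ - η))).eventually_lt continuousAt_const l1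
    have ev4 : ∀ᶠ x in 𝓝 x₀, δ < HH T u v ((R x₀ + η) • (‖x‖⁻¹ • x)) :=
      continuousAt_const.eventually_lt (ContinuousAt.comp (g := HH T u v)
        (f := fun x : E3 => (R x₀ + η) • (‖x‖⁻¹ • x)) (hHc _ g2) (hdir (R x₀ + η))) l2
    have ev5 : ∀ᶠ x in 𝓝 x₀, x ≠ (0 : E3) := eventually_ne_nhds hx₀
    filter_upwards [ev1, ev2, ev3, ev4, ev5] with x h1 h2 h3 h4 h5
    have k1 := (key x h5 (R x₀ - η) h1 (by linarith)).1 h3
    have k2 := (key x h5 (R x₀ + η) h2 (by linarith)).2.1 h4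
    rw [Real.dist_eq, abs_lt]
    constructor <;> linarith

end Pool.Agent.Lib.H74S
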