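import Pool.Agent.Lib.H74S.C10A
import Pool.Agent.Lib.H74S.C10B

set_option autoImplicit false

open Filter Topology Set MeasureTheory
open scoped ContDiff

namespace Pool.Agent.Lib.H74S

open Pool.Agent.Lib.PenroseSph

variable {F r : ℝ × ℝ → ℝ} {Q : Set (ℝ × ℝ)} {a : ℝ} {T : E3 → ℝ}

theorem c10_sum (w : E3 → ℝ) (x v : E3) : fderiv ℝ w x v = ∑ m, v m * pd m w x := by
  have hn : v = ∑ m, v m • EuclideanSpace.single m (1 : ℝ) := by
    ext i
    simp [Finset.sum_apply, Pi.single_apply]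
  calc (fderiv ℝ w x) v
      = (fderiv ℝ w x) (∑ m, v m • EuclideanSpace.single m (1 : ℝ)) := by rw [← hn]
    _ = ∑ m, v m * pd m w x := by
        rw [map_sum]
        simp [pd]

theorem c10_HH (hT : RSl Q a T) (u v : ℝ) {y : E3} (hy : a < ‖y‖) : ContDiffAt ℝ ∞ (HH T u v) y := by
  have ho : IsOpen {x : E3 | a < ‖x‖} := isOpen_lt continuous_const continuous_norm
  have h1 : ContDiffAt ℝ ∞ T y := hT.smooth.contDiffAt (ho.mem_nhds hy)
  have hy0 : y ≠ 0 := norm_pos_iff.1 (lt_of_le_of_lt hT.nonneg hy)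
  have h2 : ContDiffAt ℝ ∞ (fun y : E3 => ‖y‖) y := contDiffAt_norm ℝ hy0
  unfold HH UU VV
  exact (contDiffAt_const.sub (h1.sub h2)).mul ((h1.add h2).sub contDiffAt_const)

/-- The derivative along the ray. -/
theorem c10_der (hT : RSl Q a T) (u v : ℝ) {n : E3} (hn : ‖n‖ = 1) {s : ℝ} (hs : 0 < s) (hsn : s • n ∈ good T a u v) :
    ∃ d : ℝ, 0 < d ∧ HasDerivAt (fun s : ℝ => HH T u v (s • n)) d s := by
  have ho : IsOpen {x : E3 | a < ‖x‖} := isOpen_lt continuous_const continuous_norm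
  have h1 : DifferentiableAt ℝ T (s • n) := (hT.smooth.contDiffAt (ho.mem_nhds hsn.1)).differentiableAt (by simp)
  have h2 : HasDerivAt (fun s : ℝ => s • n) n s := by
    have h3 := (hasDerivAt_id s).smul_const n
    rwa [one_smul] at h3
  set τ := ∑ i, n i * pd i T (s • n) with hτ
  have h4 : HasDerivAt (fun s : ℝ => T (s • n)) τ s := by
    rw [hτ, ← c10_sum T (s • n) n]
    exact h1.hasFDerivAt.comp_hasDerivAt s h2
  have h5 : HasDerivAt (fun s : ℝ => ‖s • n‖) 1 s := by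
    refine (hasDerivAt_id s).congr_of_eventuallyEq ?_
    filter_upwards [lt_mem_nhds hs] with t ht
    rw [norm_smul, Real.norm_of_nonneg ht.le, hn, mul_one]
    rfl
  have h6 : |τ| < 1 := by
    have h7 := hT.steep (s • n) hsn.1
    have h8 : ∑ i, (s • n) i * pd i T (s • n) = s * τ := by
      rw [hτ, Finset.mul_sum]
      refine Finset.sum_congr rfl fun i _ => ?_
      show s * n i * pd i T (s • n) = _
      ring
    rw [h8, norm_smul, hn, mul_one, Real.norm_of_nonneg hs.le, abs_mul, abs_of_pos hs] at h7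
    nlinarith
  obtain ⟨h7, h8⟩ := abs_lt.1 h6
  have h9 := ((h4.sub h5).const_sub u).mul ((h4.add h5).sub_const v)
  refine ⟨_, ?_, h9⟩
  have h10 : 0 < u - UU T (s • n) := by linarith [hsn.2.1]
  have h11 : 0 < VV T (s • n) - v := by linarith [hsn.2.2]
  have h12 : 0 < (1 - τ) * (VV T (s • n) - v) := mul_pos (by linarith) h11
  have h13 : 0 < (u - UU T (s • n)) * (τ + 1) := mul_pos h10 (by linarith)
  have e : -(τ - 1) * ((T (s • n) + ‖s • n‖) - v) + (u - (T (s • n) - ‖s • n‖)) * (τ + 1) =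
      (1 - τ) * (VV T (s • n) - v) + (u - UU T (s • n)) * (τ + 1) := by
    unfold UU VV
    ring
  have h14 : 0 < -(τ - 1) * ((T (s • n) + ‖s • n‖) - v) + (u - (T (s • n) - ‖s • n‖)) * (τ + 1) := by
    rw [e]
    linarith
  exact h14

/-- The level sets are smooth star-shaped surfaces.
Proof: homogeneity and continuity are `C10B`, positivity is part of `Root`. Smoothness at `x₀ ≠ 0`: `C10A` with
`Φ (s, x) = HH T u v ((s / ‖x‖) • x) - δ`, which is smooth near `(R x₀, x₀)` because `(R x₀ / ‖x₀‖) • x₀ ∈ good` and `T`, the norm are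
smooth there (`a < ‖·‖`, so nonzero). The derivative in `s` at `s = R x₀`, with `n = x₀ / ‖x₀‖`, `y = R x₀ • n`, `τ = ∑ i, n i * pd i T y`:
`-(τ - 1) * (VV T y - v) + (u - UU T y) * (τ + 1) > 0`, as `|τ| < 1` by `steep` at `y` (`|∑ i, y i * pd i T y| < ‖y‖`, `‖y‖ = R x₀`). -/
theorem C10 (hT : RSl Q a T) {u v δ : ℝ} {R : E3 → ℝ} (hR : Root T a u v δ R) : RadialSurface R := by
  obtain ⟨hhom, hcont⟩ := C10B hT hR
  refine ⟨fun x₀ hx₀ => ?_, hhom, hR.pos⟩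
  have hx₀' : x₀ ≠ 0 := hx₀
  have hx0 : ‖x₀‖ ≠ 0 := norm_ne_zero_iff.2 hx₀'
  refine ContDiffAt.contDiffWithinAt ?_
  have hmem := hR.mem x₀ hx₀'
  have hin : ContDiffAt ℝ ∞ (fun q : ℝ × E3 => (q.1 / ‖q.2‖) • q.2) (R x₀, x₀) := by
    have h1 : ContDiffAt ℝ ∞ (fun q : ℝ × E3 => ‖q.2‖) (R x₀, x₀) := (contDiffAt_norm ℝ hx₀').comp (R x₀, x₀) contDiffAt_snd
    exact (contDiffAt_fst.div h1 hx0).smul contDiffAt_snd
  have hΦ : ContDiffAt ℝ ∞ (fun q : ℝ × E3 => HH T u v ((q.1 / ‖q.2‖) • q.2) - δ) (R x₀, x₀) := by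
    have h1 : ContDiffAt ℝ ∞ (HH T u v) ((fun q : ℝ × E3 => (q.1 / ‖q.2‖) • q.2) (R x₀, x₀)) := c10_HH hT u v hmem.1
    exact (h1.comp (R x₀, x₀) hin).sub contDiffAt_const
  refine C10A (Φ := fun q : ℝ × E3 => HH T u v ((q.1 / ‖q.2‖) • q.2) - δ) hΦ ?_ ?_ (hcont x₀ hx₀')
  · filter_upwards [isOpen_ne.mem_nhds hx₀'] with x hx
    show HH T u v ((R x / ‖x‖) • x) - δ = 0
    rw [hR.eq x hx, sub_self]
  · set n : E3 := (‖x₀‖⁻¹) • x₀ with hn
    have hn1 : ‖n‖ = 1 := by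
      rw [hn, norm_smul, norm_inv, norm_norm, inv_mul_cancel₀ hx0]
    have hsm : ∀ s : ℝ, (s / ‖x₀‖) • x₀ = s • n := by
      intro s
      rw [hn, smul_smul, div_eq_mul_inv]
    rw [hsm] at hmem
    obtain ⟨d, hd, h2⟩ := c10_der hT u v hn1 (hR.pos x₀ hx₀') hmem
    have h3 : HasDerivAt (fun s : ℝ => ((s, x₀) : ℝ × E3)) ((1, 0) : ℝ × E3) (R x₀) :=
      (hasDerivAt_id (R x₀)).prodMk (hasDerivAt_const (R x₀) x₀)
    have h4 : HasFDerivAt (fun q : ℝ × E3 => HH T u v ((q.1 / ‖q.2‖) • q.2) - δ)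
        (fderiv ℝ (fun q : ℝ × E3 => HH T u v ((q.1 / ‖q.2‖) • q.2) - δ) (R x₀, x₀)) (R x₀, x₀) :=
      (hΦ.differentiableAt (by simp)).hasFDerivAt
    have h5 := h4.comp_hasDerivAt (R x₀) h3
    have h6 : HasDerivAt ((fun q : ℝ × E3 => HH T u v ((q.1 / ‖q.2‖) • q.2) - δ) ∘ fun s : ℝ => ((s, x₀) : ℝ × E3)) d (R x₀) := by
      refine (h2.sub_const δ).congr_of_eventuallyEq (Eventually.of_forall fun s => ?_)
      show HH T u v ((s / ‖x₀‖) • x₀) - δ = HH T u v (s • n) - δ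
      rw [hsm]
    rw [h5.unique h6]
    exact hd

end Pool.Agent.Lib.H74S
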