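import Pool.Agent.Lib.H74S.Red

set_option autoImplicit false

open Filter Topology Set MeasureTheory
open scoped ContDiff

namespace Pool.Agent.Lib.H74S

open Pool.Agent.Lib.PenroseSph

variable {F r : ℝ × ℝ → ℝ} {Q : Set (ℝ × ℝ)} {a : ℝ} {T : E3 → ℝ}

/-- Implicit function theorem, one unknown: if `Φ (R x, x) = 0` near `x₀`, `Φ` is smooth near `(R x₀, x₀)` with positive derivative in
the first variable, and `R` is continuous at `x₀`, then `R` is smooth at `x₀`.
Proof: the map `Ψ (s, x) = (Φ (s, x), x)` is smooth at `(R x₀, x₀)` and its derivative is invertible, so it has a smooth local inverse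
`Θ` at `(0, x₀)` (ContDiffAt.to_localInverse, HasStrictFDerivAt.eventually_left_inverse). Since `(R x, x) → (R x₀, x₀)`, for `x` near
`x₀`: `(R x, x) = Θ (Ψ (R x, x)) = Θ (0, x)`, so `R x = (Θ (0, x)).1` is smooth. -/
theorem C10A {Φ : ℝ × E3 → ℝ} {R : E3 → ℝ} {x₀ : E3} (hΦ : ContDiffAt ℝ ∞ Φ (R x₀, x₀))
    (h0 : ∀ᶠ x in 𝓝 x₀, Φ (R x, x) = 0) (hpos : 0 < fderiv ℝ Φ (R x₀, x₀) (1, 0)) (hR : ContinuousAt R x₀) :
    ContDiffAt ℝ ∞ R x₀ := by
  set L : ℝ × E3 →L[ℝ] ℝ := fderiv ℝ Φ (R x₀, x₀) with hL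
  set m : ℝ := L (1, 0) with hm
  have hm0 : m ≠ 0 := hpos.ne'
  have hLs : ∀ q : ℝ × E3, L q = m * q.1 + L (0, q.2) := by
    intro q
    have e : q = q.1 • ((1 : ℝ), (0 : E3)) + (0, q.2) := by
      ext <;> simp
    conv_lhs => rw [e]
    rw [map_add, map_smul, smul_eq_mul, mul_comm]
  let A : ℝ × E3 →L[ℝ] ℝ × E3 := L.prod (ContinuousLinearMap.snd ℝ ℝ E3)
  let B : ℝ × E3 →L[ℝ] ℝ × E3 :=
    (m⁻¹ • (ContinuousLinearMap.fst ℝ ℝ E3 - L.comp ((0 : ℝ × E3 →L[ℝ] ℝ).prod (ContinuousLinearMap.snd ℝ ℝ E3)))).prod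
      (ContinuousLinearMap.snd ℝ ℝ E3)
  have hAB : Function.LeftInverse B A := by
    intro q
    ext1
    · simp only [A, B, ContinuousLinearMap.prod_apply, ContinuousLinearMap.smul_apply, ContinuousLinearMap.sub_apply,
        ContinuousLinearMap.comp_apply, ContinuousLinearMap.coe_fst', ContinuousLinearMap.coe_snd', smul_eq_mul,
        ContinuousLinearMap.zero_apply]
      rw [hLs q]
      field_simp
      ring
    · simp [A, B]
  have hBA : Function.RightInverse B A := by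
    intro q
    ext1
    · simp only [A, B, ContinuousLinearMap.prod_apply, ContinuousLinearMap.smul_apply, ContinuousLinearMap.sub_apply,
        ContinuousLinearMap.comp_apply, ContinuousLinearMap.coe_fst', ContinuousLinearMap.coe_snd', smul_eq_mul,
        ContinuousLinearMap.zero_apply]
      rw [hLs]
      simp only []
      field_simp
      ring
    · simp [A, B]
  let e : (ℝ × E3) ≃L[ℝ] (ℝ × E3) := ContinuousLinearEquiv.equivOfInverse A B hAB hBA
  have hΨc : ContDiffAt ℝ ∞ (fun q : ℝ × E3 => (Φ q, q.2)) (R x₀, x₀) := hΦ.prodMk contDiffAt_snd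
  have hΨd : HasFDerivAt (fun q : ℝ × E3 => (Φ q, q.2)) (e : ℝ × E3 →L[ℝ] ℝ × E3) (R x₀, x₀) := by
    have h1 : HasFDerivAt Φ L (R x₀, x₀) := (hΦ.differentiableAt (by simp)).hasFDerivAt
    exact h1.prodMk hasFDerivAt_snd
  have hn : (∞ : WithTop ℕ∞) ≠ 0 := by simp
  have hinv := hΨc.to_localInverse hΨd hn
  have hleft := (hΨc.hasStrictFDerivAt' hΨd hn).eventually_left_inverse
  have htend : Tendsto (fun x : E3 => (R x, x)) (𝓝 x₀) (𝓝 (R x₀, x₀)) := hR.tendsto.prodMk_nhds tendsto_id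
  have hev := htend.eventually hleft
  have hx0 : Φ (R x₀, x₀) = 0 := h0.self_of_nhds
  have hcomp : ContDiffAt ℝ ∞ (fun x : E3 => (hΨc.localInverse hΨd hn ((0 : ℝ), x)).1) x₀ := by
    have h2 : ContDiffAt ℝ ∞ (fun x : E3 => ((0 : ℝ), x)) x₀ := contDiffAt_const.prodMk contDiffAt_id
    have h3 : ContDiffAt ℝ ∞ (hΨc.localInverse hΨd hn) ((0 : ℝ), x₀) := by
      have : ((0 : ℝ), x₀) = ((fun q : ℝ × E3 => (Φ q, q.2)) (R x₀, x₀)) := by simp [hx0]
      rw [this]
      exact hinv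
    exact contDiffAt_fst.comp x₀ (h3.comp x₀ h2)
  refine hcomp.congr_of_eventuallyEq ?_
  filter_upwards [hev, h0] with x hx hx'
  have : ((0 : ℝ), x) = (Φ (R x, x), x) := by rw [hx']
  rw [this]
  have h4 := congrArg Prod.fst hx
  simp only [] at h4
  exact h4.symm

end Pool.Agent.Lib.H74S
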