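import Pool.Agent.Lib.H74S.Red

set_option autoImplicit false

open Filter Topology Set MeasureTheory
open scoped ContDiff

namespace Pool.Agent.Lib.H74S

open Pool.Agent.Lib.PenroseSph

variable {F r : ℝ × ℝ → ℝ} {Q : Set (ℝ × ℝ)} {a : ℝ} {T : E3 → ℝ}

/-- The tangent planes of the level sets are not spacelike in the `(t, ρ)` part.
Proof: let `X = (fderiv R n e) • n + R n • e`, the derivative at `n` in the direction `e` of the map `y ↦ R y • y`. Differentiate
`HH T u v (R y • y) = δ` (true for `‖y‖ = 1` and in fact for all `y ≠ 0` with `(R y / ‖y‖) • y`; since `R` is homogeneous of degree 0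
the derivative of `(R y / ‖y‖) • y` at `n` in the direction `e ⟂ n` is also `X`) in the direction `e`:
`-(dT X - dR e) * (VV - v) + (u - UU) * (dT X + dR e) = 0`, where `dR e = fderiv R n e`, `dT X = fderiv T (R n • n) X`, and the derivative of
the norm at `R n • n` in the direction `X` is `⟪n, X⟫ = dR e` (as `⟪n, e⟫ = 0`). With `α = u - UU > 0`, `β = VV - v > 0`:
`(dT X - dR e) * β = α * (dT X + dR e)`, so `(dT X - dR e) * (dT X + dR e) = (α / β) * (dT X + dR e)^2 >= 0`. -/
theorem C11 (hT : RSl Q a T) {u v δ : ℝ} {R : E3 → ℝ} (hR : Root T a u v δ R) (hS : RadialSurface R)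
    {n : E3} (hn : ‖n‖ = 1) {e : E3} (he : ∑ i, e i * n i = 0) :
    (fderiv ℝ R n e) ^ 2 ≤ (fderiv ℝ T (R n • n) (fderiv ℝ R n e • n + R n • e)) ^ 2 := by
  sorry

end Pool.Agent.Lib.H74S
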