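import Pool.Agent.Lib.H74S.C1

set_option autoImplicit false

open Filter Topology Set MeasureTheory
open scoped ContDiff

namespace Pool.Agent.Lib.H74S

open Pool.Agent.Lib.PenroseSph

variable {F r : ℝ × ℝ → ℝ} {Q : Set (ℝ × ℝ)} {a : ℝ} {T : E3 → ℝ}

/-- `HH` is strictly increasing along rays in `good`.
Proof: both factors `u - UU T` and `VV T - v` are positive on `good` and strictly increasing along rays by `C1`
(`s' • n = (s' / s) • (s • n)`). -/
theorem C9U (hT : RSl Q a T) {u v : ℝ} {n : E3} {s s' : ℝ} (hs : 0 < s) (hss : s < s')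
    (h1 : s • n ∈ good T a u v) : s' • n ∈ good T a u v ∧ HH T u v (s • n) < HH T u v (s' • n) := by
  obtain ⟨ha, hu, hv⟩ := h1
  have hc : 1 < s' / s := by
    rw [one_lt_div hs]
    exact hss
  have e : s' • n = (s' / s) • (s • n) := by
    rw [smul_smul]
    congr 1
    field_simp
  obtain ⟨hU, hV⟩ := C1 hT ha hc
  have hpos : 0 < ‖s • n‖ := lt_of_le_of_lt hT.nonneg ha
  rw [e]
  refine ⟨⟨?_, by linarith, by linarith⟩, ?_⟩
  · rw [norm_smul, Real.norm_eq_abs, abs_of_pos (by linarith)]
    nlinarith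
  · unfold HH
    apply mul_lt_mul'' <;> linarith

end Pool.Agent.Lib.H74S
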