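import Pool.Agent.Lib.H74S.C8
import Pool.Agent.Lib.H74S.C9U

set_option autoImplicit false

open Filter Topology Set MeasureTheory
open scoped ContDiff

namespace Pool.Agent.Lib.H74S

open Pool.Agent.Lib.PenroseSph

variable {F r : ℝ × ℝ → ℝ} {Q : Set (ℝ × ℝ)} {a : ℝ} {T : E3 → ℝ}

/-- The level sets converge to the boundary of `good` on every ray.
Proof: let `s₀` be as in `C8`. As `R k n • n ∈ good` and `s₀ • n ∉ good` (one of the strict inequalities fails), `R k n > s₀` (if `R k n <= s₀`, the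
points above it would all be in `good` by `C9U`, including `s₀`, contradiction; note `R k n > 0`). Given `η > 0`, `HH ((s₀ + η) n) > 0`, so
for large `k`: `1 / (k + 1) < HH ((s₀ + η) n)`, hence `R k n < s₀ + η` by `C9U`. -/
theorem C12A (hT : RSl Q a T) {u v : ℝ} (hinf : ∀ b : ℝ, ∃ R, ∀ x : E3, R ≤ ‖x‖ → UU T x < b ∧ b < VV T x)
    {n : E3} (hn : ‖n‖ = 1) (hfib : ∃ s, a < s ∧ u ≤ UU T (s • n)) {R : ℕ → E3 → ℝ}
    (hR : ∀ k : ℕ, Root T a u v (1 / ((k : ℝ) + 1)) (R k)) :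
    ∃ s₀, a < s₀ ∧ ((UU T (s₀ • n) = u ∧ v ≤ VV T (s₀ • n)) ∨ (VV T (s₀ • n) = v ∧ UU T (s₀ • n) ≤ u)) ∧
      Tendsto (fun k => R k n) atTop (𝓝 s₀) ∧ ∀ k, R k n ≤ R 0 n := by
  sorry

end Pool.Agent.Lib.H74S
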