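import Pool.Agent.Lib.H74S.C10
import Pool.Agent.Lib.H74S.C12A

set_option autoImplicit false

open Filter Topology Set MeasureTheory
open scoped ContDiff

namespace Pool.Agent.Lib.H74S

open Pool.Agent.Lib.PenroseSph

variable {F r : ℝ × ℝ → ℝ} {Q : Set (ℝ × ℝ)} {a : ℝ} {T : E3 → ℝ}

/-- The areas of the round parts converge.
Proof: dominated convergence for `f_k n = r (pt T (R k n • n)) ^ 2` on the unit sphere (finite measure `sm`, `sm.real univ = 4 π`, lemma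
`sm_univ`). Each `f_k` is continuous (`R k` is continuous on the sphere by `C10`, `R k n • n ∈ good`, `r` is continuous on `Q`, `T` on
`a < ‖x‖`), by `C12A` `f_k n → r (pt T (s₀ n • n)) ^ 2`, which is in `[0, B ^ 2]` by `hz`. Domination: all points `R k n • n` lie in
`K = {x | a < ‖x‖ ∧ UU T x <= u} ∩ closedBall 0 R₁`, `R₁` a bound of the continuous function `R 0` on the sphere (`R k n <= R 0 n`); `K` is compact by
`hcl`, and `x ↦ r (pt T x) ^ 2` is continuous on it, so bounded. The limit function is then integrable with integral `<= 4 π B ^ 2`. -/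
theorem C12 (h : Red F r Q) (hT : RSl Q a T) {u v B : ℝ}
    (hinf : ∀ b : ℝ, ∃ R, ∀ x : E3, R ≤ ‖x‖ → UU T x < b ∧ b < VV T x)
    (hfib : ∀ n : E3, ‖n‖ = 1 → ∃ s, a < s ∧ u ≤ UU T (s • n)) (hcl : IsClosed {x : E3 | a < ‖x‖ ∧ UU T x ≤ u})
    (hz : ∀ z : E3, a < ‖z‖ → (UU T z = u ∧ v ≤ VV T z) ∨ (VV T z = v ∧ UU T z ≤ u) → r (pt T z) ≤ B)
    {R : ℕ → E3 → ℝ} (hR : ∀ k : ℕ, Root T a u v (1 / ((k : ℝ) + 1)) (R k)) {ε : ℝ} (hε : 0 < ε) :
    ∃ k, ∫ n : S2, r (pt T (R k n • (n : E3))) ^ 2 ∂sm ≤ 4 * Real.pi * B ^ 2 + ε := by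
  sorry

end Pool.Agent.Lib.H74S
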