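import Pool.Agent.Lib.H74S.Red

set_option autoImplicit false

open Filter Topology Set MeasureTheory
open scoped ContDiff

namespace Pool.Agent.Lib.H74S

open Pool.Agent.Lib.PenroseSph

variable {F r : ℝ × ℝ → ℝ} {Q : Set (ℝ × ℝ)} {a : ℝ} {T : E3 → ℝ}

theorem c2_smooth {f : ℝ × ℝ → ℝ} (hQ : IsOpen Q) (hf : ContDiffOn ℝ ∞ f Q) {p : ℝ × ℝ} (hp : p ∈ Q) (σ : ℝ) :
    ContDiffAt ℝ ∞ (DD σ f) p := by
  have h1 : ContDiffAt ℝ ∞ f p := hf.contDiffAt (hQ.mem_nhds hp)
  have h2 : ContDiffAt ℝ ∞ (fderiv ℝ f) p := h1.fderiv_right le_rfl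
  exact h2.clm_apply contDiffAt_const

theorem c2_diff {f : ℝ × ℝ → ℝ} {p : ℝ × ℝ} (hf : ContDiffAt ℝ ∞ f p) : DifferentiableAt ℝ f p :=
  hf.differentiableAt (by simp)

theorem c2_curve {f : ℝ × ℝ → ℝ} {p : ℝ × ℝ} {σ s : ℝ} (hf : DifferentiableAt ℝ f (p + (s, σ * s))) :
    HasDerivAt (fun s : ℝ => f (p + (s, σ * s))) (DD σ f (p + (s, σ * s))) s := by
  have h1 : HasDerivAt (fun s : ℝ => p + ((s, σ * s) : ℝ × ℝ)) ((1, σ) : ℝ × ℝ) s := by
    have h2 : HasDerivAt (fun s : ℝ => ((s, σ * s) : ℝ × ℝ)) ((1, σ * 1) : ℝ × ℝ) s :=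
      (hasDerivAt_id s).prodMk ((hasDerivAt_id s).const_mul σ)
    have h3 := h2.const_add p
    rwa [mul_one] at h3
  exact hf.hasFDerivAt.comp_hasDerivAt s h1

/-- Raychaudhuri's equation integrated: `DD σ r / F` is nonincreasing along null segments in `Q`.
Proof: put `γ s = p + (s, σ s)`, `0 <= s <= l`. The whole segment is in `Q` by `null_convex` (for `σ = 1` the difference
`p.1 - p.2` is constant, for `σ = -1` the sum `p.1 + p.2`). `d/ds f (γ s) = DD σ f (γ s)` for differentiable `f`. So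
`d/ds (DD σ r / F) = (DD σ (DD σ r) - DD σ F / F * DD σ r) / F <= 0` by `ray`; use antitoneOn_of_deriv_nonpos. (`DD σ r` is smooth
on the open set `Q` because `r` is.) -/
theorem C2 (h : Red F r Q) {σ : ℝ} (hσ : σ = 1 ∨ σ = -1) {p : ℝ × ℝ} {l : ℝ} (hp : p ∈ Q) (hl : 0 ≤ l)
    (hq : p + (l, σ * l) ∈ Q) :
    DD σ r (p + (l, σ * l)) / F (p + (l, σ * l)) ≤ DD σ r p / F p := by
  have hseg : segment ℝ p (p + (l, σ * l)) ⊆ Q := by
    apply h.null_convex p hp _ hq
    rcases hσ with rfl | rfl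
    · left
      simp only [Prod.fst_add, Prod.snd_add]
      ring
    · right
      simp only [Prod.fst_add, Prod.snd_add]
      ring
  have hmem : ∀ s ∈ Icc 0 l, p + (s, σ * s) ∈ Q := by
    intro s hs
    apply hseg
    rcases hl.eq_or_lt with h0 | h0
    · have h1 : s = 0 := le_antisymm (by rw [h0]; exact hs.2) hs.1
      rw [h1]
      have h2 : p + ((0 : ℝ), σ * 0) = p := by
        rw [mul_zero]
        exact add_zero p
      rw [h2]
      exact left_mem_segment ℝ p _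
    · rw [segment_eq_image']
      refine ⟨s / l, ⟨div_nonneg hs.1 hl, (div_le_one h0).2 hs.2⟩, ?_⟩
      show p + (s / l) • (p + (l, σ * l) - p) = p + (s, σ * s)
      rw [add_sub_cancel_left]
      congr 1
      show ((s / l) * l, (s / l) * (σ * l)) = (s, σ * s)
      have h1 : s / l * l = s := div_mul_cancel₀ s h0.ne'
      rw [show s / l * (σ * l) = σ * (s / l * l) by ring, h1]
  have hd : ∀ s ∈ Icc 0 l, HasDerivAt (fun s : ℝ => DD σ r (p + (s, σ * s)) / F (p + (s, σ * s)))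
      ((DD σ (DD σ r) (p + (s, σ * s)) * F (p + (s, σ * s)) - DD σ r (p + (s, σ * s)) * DD σ F (p + (s, σ * s))) /
        F (p + (s, σ * s)) ^ 2) s := by
    intro s hs
    have h1 := hmem s hs
    exact (c2_curve (c2_diff (c2_smooth h.isOpen h.smooth_r h1 σ))).div
      (c2_curve (c2_diff (h.smooth_F.contDiffAt (h.isOpen.mem_nhds h1)))) (h.F_pos _ h1).ne'
  have hanti : AntitoneOn (fun s : ℝ => DD σ r (p + (s, σ * s)) / F (p + (s, σ * s))) (Icc 0 l) := by
    refine antitoneOn_of_deriv_nonpos (convex_Icc 0 l) (fun s hs => (hd s hs).continuousAt.continuousWithinAt)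
      (fun s hs => (hd s (interior_subset hs)).differentiableAt.differentiableWithinAt) fun s hs => ?_
    rw [(hd s (interior_subset hs)).deriv]
    have h1 := hmem s (interior_subset hs)
    have h2 := h.F_pos _ h1
    have h3 := h.ray _ h1 σ hσ
    have h4 : DD σ (DD σ r) (p + (s, σ * s)) * F (p + (s, σ * s)) ≤ DD σ r (p + (s, σ * s)) * DD σ F (p + (s, σ * s)) := by
      have h5 := mul_le_mul_of_nonneg_right h3 h2.le
      have h6 : DD σ F (p + (s, σ * s)) / F (p + (s, σ * s)) * DD σ r (p + (s, σ * s)) * F (p + (s, σ * s)) =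
          DD σ r (p + (s, σ * s)) * DD σ F (p + (s, σ * s)) := by
        field_simp
      rwa [h6] at h5
    exact div_nonpos_of_nonpos_of_nonneg (by linarith) (by positivity)
  have h7 := hanti (left_mem_Icc.2 hl) (right_mem_Icc.2 hl) hl
  have h8 : p + ((0 : ℝ), σ * 0) = p := by
    rw [mul_zero]
    exact add_zero p
  simp only [h8] at h7
  exact h7

end Pool.Agent.Lib.H74S
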