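import Pool.Agent.Lib.H74S.C2

set_option autoImplicit false

open Filter Topology Set MeasureTheory
open scoped ContDiff

namespace Pool.Agent.Lib.H74S

open Pool.Agent.Lib.PenroseSph

variable {F r : ℝ × ℝ → ℝ} {Q : Set (ℝ × ℝ)} {a : ℝ} {T : E3 → ℝ}

/-- Consequences for `r`.
Proof: put `γ s = p + (s, σ s)`, `0 <= s <= l`, in `Q` by `null_convex`. By `C2` applied to the pieces from `γ s` to the end and from
the start to `γ s`: if `DD σ r >= 0` at the end, then `DD σ r (γ s) / F (γ s) >= 0` for all `s`, so `DD σ r (γ s) >= 0` and `r ∘ γ`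
(derivative `DD σ r (γ s)`) is nondecreasing. If `DD σ r p <= 0`, then `DD σ r (γ s) <= 0` for all `s` and `r ∘ γ` is
nonincreasing. -/
theorem C2B (h : Red F r Q) {σ : ℝ} (hσ : σ = 1 ∨ σ = -1) {p : ℝ × ℝ} {l : ℝ} (hp : p ∈ Q) (hl : 0 ≤ l)
    (hq : p + (l, σ * l) ∈ Q) :
    (0 ≤ DD σ r (p + (l, σ * l)) → r p ≤ r (p + (l, σ * l))) ∧
      (DD σ r p ≤ 0 → r (p + (l, σ * l)) ≤ r p) := by
  sorry

end Pool.Agent.Lib.H74S
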