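import Pool.Agent.Lib.H74S.Red

set_option autoImplicit false

open Filter Topology Set MeasureTheory
open scoped ContDiff

namespace Pool.Agent.Lib.H74S

open Pool.Agent.Lib.PenroseSph

variable {F r : ℝ × ℝ → ℝ} {Q : Set (ℝ × ℝ)} {a : ℝ} {T : E3 → ℝ}

theorem c3_smooth {f : ℝ × ℝ → ℝ} {p : ℝ × ℝ} (h1 : ContDiffAt ℝ ∞ f p) (σ : ℝ) :
    ContDiffAt ℝ ∞ (DD σ f) p := by
  have h2 : ContDiffAt ℝ ∞ (fderiv ℝ f) p := h1.fderiv_right le_rfl
  exact h2.clm_apply contDiffAt_const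

theorem c3_symm {f : ℝ × ℝ → ℝ} {p : ℝ × ℝ} (h1 : ContDiffAt ℝ ∞ f p) (σ τ : ℝ) :
    DD σ (DD τ f) p = DD τ (DD σ f) p := by
  have h2 : DifferentiableAt ℝ (fderiv ℝ f) p :=
    (h1.fderiv_right (m := ∞) le_rfl).differentiableAt (by simp)
  have h3 : ∀ σ τ : ℝ, DD σ (DD τ f) p = fderiv ℝ (fderiv ℝ f) p (1, σ) (1, τ) := by
    intro σ τ
    show fderiv ℝ (fun q => fderiv ℝ f q (1, τ)) p (1, σ) = _
    have h4 : HasFDerivAt (fun q => fderiv ℝ f q ((1, τ) : ℝ × ℝ))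
        ((fderiv ℝ (fderiv ℝ f) p).flip (1, τ)) p := by
      have h5 := h2.hasFDerivAt.clm_apply (hasFDerivAt_const ((1, τ) : ℝ × ℝ) p)
      refine h5.congr_fderiv ?_
      ext <;> simp
    rw [h4.fderiv]
    rfl
  have h6 : IsSymmSndFDerivAt ℝ f p := h1.isSymmSndFDerivAt (by simp; norm_cast)
  rw [h3, h3]
  exact h6 (1, σ) (1, τ)

theorem c3_has {f : ℝ × ℝ → ℝ} {p : ℝ × ℝ} (h1 : DifferentiableAt ℝ f p) (σ : ℝ) :
    HasDerivAt (fun s : ℝ => f (p + s • ((1, σ) : ℝ × ℝ))) (DD σ f p) 0 := by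
  have h2 : HasDerivAt (fun s : ℝ => p + s • ((1, σ) : ℝ × ℝ)) ((1, σ) : ℝ × ℝ) 0 := by
    have h3 := ((hasDerivAt_id (0 : ℝ)).smul_const ((1, σ) : ℝ × ℝ)).const_add p
    rwa [one_smul] at h3
  have h4 : HasFDerivAt f (fderiv ℝ f p) (p + (0 : ℝ) • ((1, σ) : ℝ × ℝ)) := by
    rw [zero_smul, add_zero]
    exact h1.hasFDerivAt
  exact h4.comp_hasDerivAt 0 h2

theorem c3_one (h : Red F r Q) {p : ℝ × ℝ} (hp : p ∈ Q) (σ : ℝ) : DifferentiableAt ℝ (mass F r) p ∧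
    DD σ (mass F r) p = DD σ r p / 2 * (1 + DD 1 r p * DD (-1) r p / F p) + r p / 2 *
      (((DD σ (DD 1 r) p * DD (-1) r p + DD 1 r p * DD σ (DD (-1) r) p) * F p - DD 1 r p * DD (-1) r p * DD σ F p) /
        F p ^ 2) := by
  have hr : ContDiffAt ℝ ∞ r p := h.smooth_r.contDiffAt (h.isOpen.mem_nhds hp)
  have hF : ContDiffAt ℝ ∞ F p := h.smooth_F.contDiffAt (h.isOpen.mem_nhds hp)
  have dr : DifferentiableAt ℝ r p := hr.differentiableAt (by simp)
  have dF : DifferentiableAt ℝ F p := hF.differentiableAt (by simp)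
  have dA : DifferentiableAt ℝ (DD 1 r) p := (c3_smooth hr 1).differentiableAt (by simp)
  have dB : DifferentiableAt ℝ (DD (-1) r) p := (c3_smooth hr (-1)).differentiableAt (by simp)
  have hF0 := (h.F_pos p hp).ne'
  have hd : DifferentiableAt ℝ (mass F r) p := by
    have e : mass F r = fun q => r q * (1 / 2) * (1 + DD 1 r q * DD (-1) r q * (F q)⁻¹) := by
      funext q
      unfold mass
      rw [div_eq_mul_inv (DD 1 r q * DD (-1) r q)]
      ring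
    rw [e]
    exact (dr.mul_const (1 / 2)).mul (((dA.mul dB).mul (dF.inv hF0)).const_add 1)
  refine ⟨hd, ?_⟩
  have e0 : p + (0 : ℝ) • ((1, σ) : ℝ × ℝ) = p := by rw [zero_smul, add_zero]
  have h1 := c3_has hd σ
  have h2 := ((c3_has dr σ).div_const 2).mul
    ((((c3_has dA σ).mul (c3_has dB σ)).div (c3_has dF σ) (by rw [e0]; exact hF0)).const_add 1)
  have h3 := h1.unique h2
  simp only [e0, Pi.mul_apply, Pi.div_apply] at h3
  exact h3

/-- The derivatives of the mass.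
Proof: product and quotient rule; the second derivatives are symmetric:
`DD (-1) (DD 1 r) p = DD 1 (DD (-1) r) p` (r is smooth on the open set Q: ContDiffAt.isSymmSndFDerivAt), and
`DD σ (DD τ r) p = fderiv (fderiv r) p (1,σ) (1,τ)`. Then `field_simp; ring`. -/
theorem C3 (h : Red F r Q) {p : ℝ × ℝ} (hp : p ∈ Q) : DifferentiableAt ℝ (mass F r) p ∧
    DD 1 (mass F r) p = DD 1 r p / (2 * F p) * (F p + DD 1 r p * DD (-1) r p + r p * DD 1 (DD (-1) r) p)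
      + r p / (2 * F p) * DD (-1) r p * (DD 1 (DD 1 r) p - DD 1 F p / F p * DD 1 r p) ∧
    DD (-1) (mass F r) p = DD (-1) r p / (2 * F p) * (F p + DD 1 r p * DD (-1) r p + r p * DD 1 (DD (-1) r) p)
      + r p / (2 * F p) * DD 1 r p * (DD (-1) (DD (-1) r) p - DD (-1) F p / F p * DD (-1) r p) := by
  have hr : ContDiffAt ℝ ∞ r p := h.smooth_r.contDiffAt (h.isOpen.mem_nhds hp)
  have hF0 := (h.F_pos p hp).ne'
  obtain ⟨h1, h2⟩ := c3_one h hp 1
  obtain ⟨_, h3⟩ := c3_one h hp (-1)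
  refine ⟨h1, ?_, ?_⟩
  · rw [h2]
    field_simp
    ring
  · rw [h3, c3_symm hr (-1) 1]
    field_simp
    ring

end Pool.Agent.Lib.H74S
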