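import Pool.Agent.Lib.H74S.C3

set_option autoImplicit false

open Filter Topology Set MeasureTheory
open scoped ContDiff

namespace Pool.Agent.Lib.H74S

open Pool.Agent.Lib.PenroseSph

variable {F r : ℝ × ℝ → ℝ} {Q : Set (ℝ × ℝ)} {a : ℝ} {T : E3 → ℝ}

theorem c4_sum (w : E3 → ℝ) (x v : E3) : fderiv ℝ w x v = ∑ m, v m * pd m w x := by
  have hn : v = ∑ m, v m • EuclideanSpace.single m (1 : ℝ) := by
    ext i
    simp [Finset.sum_apply, Pi.single_apply]
  calc (fderiv ℝ w x) v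
      = (fderiv ℝ w x) (∑ m, v m • EuclideanSpace.single m (1 : ℝ)) := by rw [← hn]
    _ = ∑ m, v m * pd m w x := by
        rw [map_sum]
        simp [pd]

theorem c4_curve (hT : RSl Q a T) {x : E3} {s : ℝ} (hs : 0 < s) (hx : a < ‖s • x‖) :
    HasDerivAt (fun s : ℝ => pt T (s • x)) ((∑ i, x i * pd i T (s • x), ‖x‖) : ℝ × ℝ) s := by
  have ho : IsOpen {x : E3 | a < ‖x‖} := isOpen_lt continuous_const continuous_norm
  have h1 : DifferentiableAt ℝ T (s • x) := (hT.smooth.contDiffAt (ho.mem_nhds hx)).differentiableAt (by simp)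
  have h2 : HasDerivAt (fun s : ℝ => s • x) x s := by
    have h3 := (hasDerivAt_id s).smul_const x
    rwa [one_smul] at h3
  have h4 : HasDerivAt (fun s : ℝ => T (s • x)) (∑ i, x i * pd i T (s • x)) s := by
    rw [← c4_sum T (s • x) x]
    exact h1.hasFDerivAt.comp_hasDerivAt s h2
  have h5 : HasDerivAt (fun s : ℝ => ‖s • x‖) ‖x‖ s := by
    have h6 : HasDerivAt (fun s : ℝ => s * ‖x‖) (1 * ‖x‖) s := (hasDerivAt_id s).mul_const ‖x‖
    rw [one_mul] at h6
    refine h6.congr_of_eventuallyEq ?_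
    filter_upwards [lt_mem_nhds hs] with t ht
    rw [norm_smul, Real.norm_of_nonneg ht.le]
  exact h4.prodMk h5

/-- The mass is nondecreasing along a ray in a region where `DD 1 r >= 0` and `DD (-1) r <= 0`.
Proof: `g s = mass F r (pt T (s • x))`, `s ∈ [1, c]`, is continuous, differentiable for `s > 1`, with derivative
`fderiv (mass F r) (pt T (s x)) (τ, ‖x‖)`, `τ = ∑ i, x i * pd i T (s x)`, `|τ| < ‖x‖` (see C1), and by linearity
`fderiv m p (τ, ‖x‖) = ((τ + ‖x‖) / 2) * DD 1 m p + ((τ - ‖x‖) / 2) * DD (-1) m p >= 0`, since by `C3`, `mix` and `ray`: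
`DD 1 m p >= 0` and `DD (-1) m p <= 0` if `DD 1 r p >= 0` and `DD (-1) r p <= 0`. monotoneOn_of_deriv_nonneg. -/
theorem C4 (h : Red F r Q) (hT : RSl Q a T) {x : E3} (hx : a < ‖x‖)
    (hg : ∀ c : ℝ, 1 < c → 0 ≤ DD 1 r (pt T (c • x)) ∧ DD (-1) r (pt T (c • x)) ≤ 0) {c : ℝ} (hc : 1 ≤ c) :
    mass F r (pt T x) ≤ mass F r (pt T (c • x)) := by
  have hns : ∀ s : ℝ, 1 ≤ s → ‖s • x‖ = s * ‖x‖ := by
    intro s hs
    rw [norm_smul, Real.norm_of_nonneg (by linarith)]
  have hx0 : 0 < ‖x‖ := lt_of_le_of_lt hT.nonneg hx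
  have hsx : ∀ s : ℝ, 1 ≤ s → a < ‖s • x‖ := by
    intro s hs
    rw [hns s hs]
    nlinarith
  have hd : ∀ s : ℝ, 1 ≤ s → HasDerivAt (fun s : ℝ => mass F r (pt T (s • x)))
      (fderiv ℝ (mass F r) (pt T (s • x)) ((∑ i, x i * pd i T (s • x), ‖x‖) : ℝ × ℝ)) s := by
    intro s hs
    have h1 : pt T (s • x) ∈ Q := hT.mem _ (hsx s hs)
    exact (C3 h h1).1.hasFDerivAt.comp_hasDerivAt s (c4_curve hT (by linarith) (hsx s hs))
  have hmono : MonotoneOn (fun s : ℝ => mass F r (pt T (s • x))) (Ici 1) := by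
    refine monotoneOn_of_deriv_nonneg (convex_Ici 1) (fun s hs => (hd s hs).continuousAt.continuousWithinAt)
      (fun s hs => (hd s (interior_subset hs)).differentiableAt.differentiableWithinAt) fun s hs => ?_
    rw [interior_Ici] at hs
    have hs1 : 1 < s := hs
    rw [(hd s hs1.le).deriv]
    set p := pt T (s • x) with hp
    have h1 : p ∈ Q := hT.mem _ (hsx s hs1.le)
    set τ := ∑ i, x i * pd i T (s • x) with hτ
    have h2 : |τ| < ‖x‖ := by
      have h3 := hT.steep (s • x) (hsx s hs1.le)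
      have h4 : ∑ i, (s • x) i * pd i T (s • x) = s * τ := by
        rw [hτ, Finset.mul_sum]
        refine Finset.sum_congr rfl fun i _ => ?_
        show s * x i * pd i T (s • x) = _
        ring
      rw [h4, hns s hs1.le, abs_mul, abs_of_pos (by linarith : 0 < s)] at h3
      exact lt_of_mul_lt_mul_left h3 (by linarith)
    obtain ⟨h5, h6⟩ := abs_lt.1 h2
    have h7 : ((τ, ‖x‖) : ℝ × ℝ) = ((τ + ‖x‖) / 2) • ((1, 1) : ℝ × ℝ) + ((τ - ‖x‖) / 2) • ((1, -1) : ℝ × ℝ) := by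
      ext
      · simp only [Prod.fst_add, Prod.smul_fst, smul_eq_mul]
        ring
      · simp only [Prod.snd_add, Prod.smul_snd, smul_eq_mul]
        ring
    rw [h7, map_add, map_smul, map_smul]
    obtain ⟨hA, hB⟩ := hg s hs1
    obtain ⟨_, h8, h9⟩ := C3 h h1
    have hF := h.F_pos p h1
    have hr := h.r_pos p h1
    have hmix := h.mix p h1
    have hr1 := h.ray p h1 1 (Or.inl rfl)
    have hr2 := h.ray p h1 (-1) (Or.inr rfl)
    have k1 : 0 ≤ DD 1 (mass F r) p := by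
      rw [h8]
      have m1 : 0 ≤ DD 1 r p / (2 * F p) * (F p + DD 1 r p * DD (-1) r p + r p * DD 1 (DD (-1) r) p) :=
        mul_nonneg (div_nonneg hA (by linarith)) hmix
      have m2 : 0 ≤ r p / (2 * F p) * DD (-1) r p * (DD 1 (DD 1 r) p - DD 1 F p / F p * DD 1 r p) :=
        mul_nonneg_of_nonpos_of_nonpos (mul_nonpos_of_nonneg_of_nonpos (div_nonneg hr.le (by linarith)) hB) (by linarith)
      linarith
    have k2 : DD (-1) (mass F r) p ≤ 0 := by
      rw [h9]
      have m1 : DD (-1) r p / (2 * F p) * (F p + DD 1 r p * DD (-1) r p + r p * DD 1 (DD (-1) r) p) ≤ 0 :=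
        mul_nonpos_of_nonpos_of_nonneg (div_nonpos_of_nonpos_of_nonneg hB (by linarith)) hmix
      have m2 : r p / (2 * F p) * DD 1 r p * (DD (-1) (DD (-1) r) p - DD (-1) F p / F p * DD (-1) r p) ≤ 0 :=
        mul_nonpos_of_nonneg_of_nonpos (mul_nonneg (div_nonneg hr.le (by linarith)) hA) (by linarith)
      linarith
    have k3 : 0 ≤ (τ + ‖x‖) / 2 * DD 1 (mass F r) p := mul_nonneg (by linarith) k1
    have k4 : 0 ≤ (τ - ‖x‖) / 2 * DD (-1) (mass F r) p := mul_nonneg_of_nonpos_of_nonpos (by linarith) k2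
    exact add_nonneg k3 k4
  have h1 := hmono (Set.mem_Ici.2 (le_refl (1 : ℝ))) (Set.mem_Ici.2 hc) hc
  simp only [one_smul] at h1
  exact h1

end Pool.Agent.Lib.H74S
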