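import Pool.Agent.Lib.H74S.C1

set_option autoImplicit false

open Filter Topology Set MeasureTheory
open scoped ContDiff

namespace Pool.Agent.Lib.H74S

open Pool.Agent.Lib.PenroseSph

variable {F r : ℝ × ℝ → ℝ} {Q : Set (ℝ × ℝ)} {a : ℝ} {T : E3 → ℝ}

theorem c5_pt (hT : RSl Q a T) : ContinuousOn (pt T) {x : E3 | a < ‖x‖} := by
  unfold pt
  exact hT.smooth.continuousOn.prodMk continuous_norm.continuousOn

theorem c5_DD (h : Red F r Q) (σ : ℝ) : ContinuousOn (DD σ r) Q := by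
  intro p hp
  have h1 : ContDiffAt ℝ ∞ r p := h.smooth_r.contDiffAt (h.isOpen.mem_nhds hp)
  have h2 : ContDiffAt ℝ ∞ (fderiv ℝ r) p := h1.fderiv_right le_rfl
  have h3 : ContDiffAt ℝ ∞ (DD σ r) p := h2.clm_apply contDiffAt_const
  exact h3.continuousAt.continuousWithinAt

theorem c5_comp (h : Red F r Q) (hT : RSl Q a T) (σ : ℝ) : ContinuousOn (fun x => DD σ r (pt T x)) {x : E3 | a < ‖x‖} :=
  (c5_DD h σ).comp (c5_pt hT) fun x hx => hT.mem x hx

/-- The first null cone.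
Proof: the set `K = {x | a < ‖x‖ ∧ UU T x <= c ∧ DD 1 r (pt T x) <= 0}` is the intersection of the closed set `hcl` with the
preimage of `(-∞, 0]` under a function continuous on it, so closed; it is bounded by `R₀` (hfar), so compact, and contains `q`. Let
`x₁` be a minimum of the continuous function `UU T` on `K`. If `a < ‖x‖`, `UU T x < UU T x₁ <= c`, then `x ∉ K` gives
`DD 1 r (pt T x) > 0`. `DD 1 r (pt T x₁) <= 0`, and for `s > 1`, `UU T (s x₁) < UU T x₁` by `C1`, so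
`DD 1 r (pt T (s x₁)) > 0`; `s → 1` gives `DD 1 r (pt T x₁) >= 0` by continuity. -/
theorem C5 (h : Red F r Q) (hT : RSl Q a T) {R₀ : ℝ} (hfar : ∀ x : E3, R₀ ≤ ‖x‖ → 0 < DD 1 r (pt T x)) {c : ℝ} {q : E3}
    (hq : a < ‖q‖) (hqc : UU T q = c) (hqr : DD 1 r (pt T q) ≤ 0) (hcl : IsClosed {x : E3 | a < ‖x‖ ∧ UU T x ≤ c}) :
    ∃ x₁ : E3, a < ‖x₁‖ ∧ UU T x₁ ≤ c ∧ DD 1 r (pt T x₁) = 0 ∧
      ∀ x : E3, a < ‖x‖ → UU T x < UU T x₁ → 0 < DD 1 r (pt T x) := by
  have ho : IsOpen {x : E3 | a < ‖x‖} := isOpen_lt continuous_const continuous_norm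
  set C : Set E3 := {x : E3 | a < ‖x‖ ∧ UU T x ≤ c} with hC
  set K : Set E3 := C ∩ (fun x => DD 1 r (pt T x)) ⁻¹' Iic 0 with hK
  have hcont : ContinuousOn (fun x => DD 1 r (pt T x)) C := (c5_comp h hT 1).mono fun x hx => hx.1
  have hKcl : IsClosed K := hcont.preimage_isClosed_of_isClosed hcl isClosed_Iic
  have hKb : K ⊆ Metric.closedBall 0 R₀ := by
    intro x hx
    rw [mem_closedBall_zero_iff]
    by_contra h1
    have h2 := hfar x (not_le.1 h1).le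
    have h3 : DD 1 r (pt T x) ≤ 0 := hx.2
    linarith
  have hKc : IsCompact K := (isCompact_closedBall (0 : E3) R₀).of_isClosed_subset hKcl hKb
  have hUU : ContinuousOn (UU T) K := by
    unfold UU
    exact (hT.smooth.continuousOn.sub continuous_norm.continuousOn).mono fun x hx => hx.1.1
  obtain ⟨x₁, hx₁, hmin⟩ := hKc.exists_isMinOn ⟨q, ⟨hq, hqc.le⟩, hqr⟩ hUU
  have hlast : ∀ x : E3, a < ‖x‖ → UU T x < UU T x₁ → 0 < DD 1 r (pt T x) := by
    intro x hx hlt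
    by_contra h1
    have h2 : x ∈ K := ⟨⟨hx, hlt.le.trans hx₁.1.2⟩, not_lt.1 h1⟩
    exact absurd (hmin h2) (not_le.2 hlt)
  refine ⟨x₁, hx₁.1.1, hx₁.1.2, le_antisymm hx₁.2 ?_, hlast⟩
  have hx1 : a < ‖x₁‖ := hx₁.1.1
  have hx0 : 0 < ‖x₁‖ := lt_of_le_of_lt hT.nonneg hx1
  have h1 : Tendsto (fun s : ℝ => DD 1 r (pt T (s • x₁))) (𝓝[>] 1) (𝓝 (DD 1 r (pt T x₁))) := by
    have h2 : ContinuousAt (fun x => DD 1 r (pt T x)) x₁ := (c5_comp h hT 1).continuousAt (ho.mem_nhds hx1)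
    have h3 : Tendsto (fun s : ℝ => s • x₁) (𝓝[>] 1) (𝓝 x₁) := by
      have h4 : Tendsto (fun s : ℝ => s • x₁) (𝓝 1) (𝓝 ((1 : ℝ) • x₁)) := (continuous_id.smul continuous_const).tendsto 1
      rw [one_smul] at h4
      exact h4.mono_left nhdsWithin_le_nhds
    exact Tendsto.comp h2 h3
  refine ge_of_tendsto h1 ?_
  filter_upwards [self_mem_nhdsWithin] with s hs
  have hs1 : 1 < s := hs
  refine (hlast (s • x₁) ?_ (C1 hT hx1 hs1).1).le
  rw [norm_smul, Real.norm_of_nonneg (by linarith)]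
  nlinarith

end Pool.Agent.Lib.H74S
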