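import Pool.Agent.Lib.H74S.C1

set_option autoImplicit false

open Filter Topology Set MeasureTheory
open scoped ContDiff

namespace Pool.Agent.Lib.H74S

open Pool.Agent.Lib.PenroseSph

variable {F r : ℝ × ℝ → ℝ} {Q : Set (ℝ × ℝ)} {a : ℝ} {T : E3 → ℝ}

/-- The second null cone.
Proof: let `A = {x | a < ‖x‖ ∧ UU T x <= u}` (closed) and `K = {x ∈ A | 0 <= DD (-1) r (pt T x)}`: closed, bounded by `R₀`, so compact.
If `K` is empty: `VV T` is bounded below on `A` (it is > 0 for `‖x‖ >= R` by hinf, and continuous on the compact set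
`A ∩ closedBall 0 R`); let `v` be smaller than its infimum: second alternative. If `K` is not empty, let `y` be a maximum of `VV T`
on `K`, `v = VV T y`: if `x ∈ A` and `v < VV T x` then `x ∉ K`, i.e. `DD (-1) r (pt T x) < 0`. And `DD (-1) r (pt T y) >= 0`;
for `s > 1` the point `s y` has by `C1` `UU T (s y) < UU T y <= u`, `VV T (s y) > v`, so `DD (-1) r (pt T (s y)) < 0`, and
`s → 1` gives `DD (-1) r (pt T y) <= 0`. -/
theorem C6 (h : Red F r Q) (hT : RSl Q a T) {R₀ : ℝ} (hfar : ∀ x : E3, R₀ ≤ ‖x‖ → DD (-1) r (pt T x) < 0)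
    (hinf : ∀ b : ℝ, ∃ R, ∀ x : E3, R ≤ ‖x‖ → b < VV T x) {u : ℝ} (hcl : IsClosed {x : E3 | a < ‖x‖ ∧ UU T x ≤ u}) :
    ∃ v : ℝ, (∀ x : E3, a < ‖x‖ → UU T x ≤ u → v < VV T x → DD (-1) r (pt T x) < 0) ∧
      ((∃ y : E3, a < ‖y‖ ∧ UU T y ≤ u ∧ VV T y = v ∧ DD (-1) r (pt T y) = 0) ∨
        ∀ x : E3, a < ‖x‖ → UU T x ≤ u → v < VV T x) := by
  sorry

end Pool.Agent.Lib.H74S
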