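import Pool.Agent.Lib.H74S.C1
import Pool.Agent.Lib.H74S.C2B
import Pool.Agent.Lib.H74S.C4

set_option autoImplicit false

open Filter Topology Set MeasureTheory
open scoped ContDiff

namespace Pool.Agent.Lib.H74S

open Pool.Agent.Lib.PenroseSph

variable {F r : ℝ × ℝ → ℝ} {Q : Set (ℝ × ℝ)} {a : ℝ} {T : E3 → ℝ}

/-- On the boundary of the region outside of the two null cones, `r <= 2 E`.
Proof. (M) If `a < ‖x‖`, `UU T x <= UU T x₁`, `v <= VV T x`, then `mass F r (pt T x) <= E`: the points `c • x`, `c > 1`, have by `C1`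
`UU < UU T x₁` and `VV > v`, so `DD 1 r > 0` (hu) and `DD (-1) r < 0` (hv) there; by `C4` `mass (pt T x) <= mass (pt T (c • x)) <= E`
for `c` so large that `R₀ <= c ‖x‖` (`‖x‖ > a >= 0`). By continuity (c → 1) also `DD 1 r (pt T x) >= 0` and `DD (-1) r (pt T x) <= 0`.
If moreover `DD 1 r (pt T x) = 0` or `DD (-1) r (pt T x) = 0` then `mass = r / 2`, so `r (pt T x) <= 2 E`.
(A) `UU T z = UU T x₁`, `v <= VV T z`. If `VV T x₁ <= VV T z`: `pt T z = pt T x₁ + (l, 1 * l)` with `2 l = VV T z - VV T x₁ >= 0`, so by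
`C2` (σ = 1) `DD 1 r (pt T z) / F <= DD 1 r (pt T x₁) / F = 0`, hence `DD 1 r (pt T z) = 0` and (M). If `VV T z < VV T x₁`:
`pt T x₁ = pt T z + (l, 1 * l)`, `l > 0`, so by `C2B` `r (pt T z) <= r (pt T x₁) <= 2 E` by (M) for `x₁` (`v <= VV T z < VV T x₁`).
(B) `VV T z = v`, `UU T z <= UU T x₁`. The second alternative of `hy` is impossible. Let `y` be as in the first. If
`UU T z <= UU T y`: `pt T y = pt T z + (l, -1 * l)`, `2 l = UU T y - UU T z`, so by `C2` (σ = -1)
`0 = DD (-1) r (pt T y) / F <= DD (-1) r (pt T z) / F`, hence `DD (-1) r (pt T z) = 0` and (M). If `UU T y < UU T z`: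
`pt T z = pt T y + (l, -1 * l)` and by `C2B` (second part) `r (pt T z) <= r (pt T y) <= 2 E` by (M) for `y`. -/
theorem C7 (h : Red F r Q) (hT : RSl Q a T) {R₀ E : ℝ} (hfarE : ∀ x : E3, R₀ ≤ ‖x‖ → mass F r (pt T x) ≤ E)
    {x₁ : E3} (hx₁ : a < ‖x₁‖) (h1 : DD 1 r (pt T x₁) = 0)
    (hu : ∀ x : E3, a < ‖x‖ → UU T x < UU T x₁ → 0 < DD 1 r (pt T x)) {v : ℝ}
    (hv : ∀ x : E3, a < ‖x‖ → UU T x ≤ UU T x₁ → v < VV T x → DD (-1) r (pt T x) < 0)
    (hy : (∃ y : E3, a < ‖y‖ ∧ UU T y ≤ UU T x₁ ∧ VV T y = v ∧ DD (-1) r (pt T y) = 0) ∨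
      ∀ x : E3, a < ‖x‖ → UU T x ≤ UU T x₁ → v < VV T x)
    {z : E3} (hz : a < ‖z‖) (hzb : (UU T z = UU T x₁ ∧ v ≤ VV T z) ∨ (VV T z = v ∧ UU T z ≤ UU T x₁)) :
    r (pt T z) ≤ 2 * E := by
  have ha := hT.nonneg
  have hopen : IsOpen {x : E3 | a < ‖x‖} := isOpen_lt continuous_const continuous_norm
  -- continuity of `DD σ r` at the points of the slice
  have hDc : ∀ σ : ℝ, ∀ x : E3, a < ‖x‖ → ContinuousAt (fun c : ℝ => DD σ r (pt T (c • x))) 1 := by
    intro σ x hx
    have hx1 : a < ‖(1 : ℝ) • x‖ := by rwa [one_smul]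
    have h1 : ContinuousAt T ((1 : ℝ) • x) := (hT.smooth.contDiffAt (hopen.mem_nhds hx1)).continuousAt
    have h2 : ContinuousAt (fun s : ℝ => s • x) 1 := by fun_prop
    have h3 : ContinuousAt (fun s : ℝ => T (s • x)) 1 :=
      ContinuousAt.comp (g := T) (f := fun s : ℝ => s • x) h1 h2
    have h4 : ContinuousAt (fun s : ℝ => pt T (s • x)) 1 := h3.prodMk (by fun_prop)
    have hQ : pt T ((1 : ℝ) • x) ∈ Q := hT.mem _ hx1
    have h5 : ContinuousAt (DD σ r) (pt T ((1 : ℝ) • x)) := by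
      have h6 : ContDiffAt ℝ ∞ r (pt T ((1 : ℝ) • x)) := h.smooth_r.contDiffAt (h.isOpen.mem_nhds hQ)
      have h7 : ContinuousAt (fderiv ℝ r) (pt T ((1 : ℝ) • x)) :=
        (h6.fderiv_right (m := 0) (by simp)).continuousAt
      exact h7.clm_apply continuousAt_const
    exact ContinuousAt.comp (g := DD σ r) (f := fun s : ℝ => pt T (s • x)) h5 h4
  -- (M)
  have hM : ∀ x : E3, a < ‖x‖ → UU T x ≤ UU T x₁ → v ≤ VV T x →
      mass F r (pt T x) ≤ E := by
    intro x hx hux hvx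
    have hxp : 0 < ‖x‖ := by linarith
    have hxc : ∀ c : ℝ, 1 < c → a < ‖c • x‖ := by
      intro c hc
      rw [norm_smul, Real.norm_eq_abs, abs_of_pos (by linarith)]
      nlinarith
    have hg : ∀ c : ℝ, 1 < c → 0 < DD 1 r (pt T (c • x)) ∧ DD (-1) r (pt T (c • x)) < 0 := by
      intro c hc
      obtain ⟨h1', h2'⟩ := C1 hT hx hc
      exact ⟨hu _ (hxc c hc) (by linarith), hv _ (hxc c hc) (by linarith) (by linarith)⟩
    set c : ℝ := max 1 (R₀ / ‖x‖) with hcdef
    have hc : 1 ≤ c := le_max_left _ _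
    have h1' := C4 h hT hx (fun c hc => ⟨(hg c hc).1.le, (hg c hc).2.le⟩) hc
    refine h1'.trans (hfarE _ ?_)
    rw [norm_smul, Real.norm_eq_abs, abs_of_pos (by linarith)]
    have : R₀ / ‖x‖ ≤ c := le_max_right _ _
    rwa [div_le_iff₀ hxp] at this
  have hM1 : ∀ x : E3, a < ‖x‖ → UU T x ≤ UU T x₁ → v ≤ VV T x →
      (DD 1 r (pt T x) = 0 ∨ DD (-1) r (pt T x) = 0) → r (pt T x) ≤ 2 * E := by
    intro x hx hux hvx h0
    have h1' := hM x hx hux hvx
    have h2' : mass F r (pt T x) = r (pt T x) / 2 := by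
      unfold mass
      rcases h0 with h0 | h0 <;> rw [h0] <;> simp
    rw [h2'] at h1'
    linarith
  have hnn : ∀ x : E3, a < ‖x‖ → UU T x ≤ UU T x₁ → v ≤ VV T x →
      0 ≤ DD 1 r (pt T x) ∧ DD (-1) r (pt T x) ≤ 0 := by
    intro x hx hux hvx
    have hxp : 0 < ‖x‖ := by linarith
    have hxc : ∀ c : ℝ, 1 < c → a < ‖c • x‖ := by
      intro c hc
      rw [norm_smul, Real.norm_eq_abs, abs_of_pos (by linarith)]
      nlinarith
    have hg : ∀ c : ℝ, 1 < c → 0 < DD 1 r (pt T (c • x)) ∧ DD (-1) r (pt T (c • x)) < 0 := by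
      intro c hc
      obtain ⟨h1', h2'⟩ := C1 hT hx hc
      exact ⟨hu _ (hxc c hc) (by linarith), hv _ (hxc c hc) (by linarith) (by linarith)⟩
    constructor
    · have t1 : Tendsto (fun c : ℝ => DD 1 r (pt T (c • x))) (𝓝[>] 1) (𝓝 (DD 1 r (pt T ((1 : ℝ) • x)))) :=
        (hDc 1 x hx).tendsto.mono_left nhdsWithin_le_nhds
      rw [one_smul] at t1
      refine ge_of_tendsto t1 ?_
      filter_upwards [self_mem_nhdsWithin] with c hc
      exact (hg c hc).1.le
    · have t1 : Tendsto (fun c : ℝ => DD (-1) r (pt T (c • x))) (𝓝[>] 1) (𝓝 (DD (-1) r (pt T ((1 : ℝ) • x)))) :=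
        (hDc (-1) x hx).tendsto.mono_left nhdsWithin_le_nhds
      rw [one_smul] at t1
      refine le_of_tendsto t1 ?_
      filter_upwards [self_mem_nhdsWithin] with c hc
      exact (hg c hc).2.le
  have hptz : pt T z ∈ Q := hT.mem z hz
  have hptx₁ : pt T x₁ ∈ Q := hT.mem x₁ hx₁
  rcases hzb with ⟨hzu, hzv⟩ | ⟨hzv, hzu⟩
  · -- (A)
    rcases le_or_gt (VV T x₁) (VV T z) with hle | hlt
    · have e : pt T z = pt T x₁ + ((VV T z - VV T x₁) / 2, 1 * ((VV T z - VV T x₁) / 2)) := by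
        unfold pt UU VV at *
        ext <;> simp <;> linarith
      have h1' := C2 h (σ := 1) (Or.inl rfl) hptx₁ (l := (VV T z - VV T x₁) / 2) (by linarith) (by rw [← e]; exact hptz)
      rw [← e, h1, zero_div] at h1'
      have hF := h.F_pos _ hptz
      have h2' := (hnn z hz hzu.le hzv).1
      have h3' : DD 1 r (pt T z) ≤ 0 := by
        by_contra hcon
        rw [not_le] at hcon
        have := div_pos hcon hF
        linarith
      exact hM1 z hz hzu.le hzv (Or.inl (le_antisymm h3' h2'))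
    · have e : pt T x₁ = pt T z + ((VV T x₁ - VV T z) / 2, 1 * ((VV T x₁ - VV T z) / 2)) := by
        unfold pt UU VV at *
        ext <;> simp <;> linarith
      have h1' := (C2B h (σ := 1) (Or.inl rfl) hptz (l := (VV T x₁ - VV T z) / 2) (by linarith)
        (by rw [← e]; exact hptx₁)).1
      rw [← e, h1] at h1'
      exact (h1' le_rfl).trans (hM1 x₁ hx₁ le_rfl (by linarith) (Or.inl h1))
  · -- (B)
    rcases hy with ⟨y, hya, hyu, hyv, hy0⟩ | hy
    · have hpty : pt T y ∈ Q := hT.mem y hya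
      rcases le_or_gt (UU T z) (UU T y) with hle | hlt
      · have e : pt T y = pt T z + ((UU T y - UU T z) / 2, (-1) * ((UU T y - UU T z) / 2)) := by
          unfold pt UU VV at *
          ext <;> simp <;> linarith
        have h1' := C2 h (σ := -1) (Or.inr rfl) hptz (l := (UU T y - UU T z) / 2) (by linarith) (by rw [← e]; exact hpty)
        rw [← e, hy0, zero_div] at h1'
        have hF := h.F_pos _ hptz
        have h2' := (hnn z hz hzu hzv.ge).2
        have h3' : 0 ≤ DD (-1) r (pt T z) := by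
          by_contra hcon
          rw [not_le] at hcon
          have := div_neg_of_neg_of_pos hcon hF
          linarith
        exact hM1 z hz hzu hzv.ge (Or.inr (le_antisymm h2' h3'))
      · have e : pt T z = pt T y + ((UU T z - UU T y) / 2, (-1) * ((UU T z - UU T y) / 2)) := by
          unfold pt UU VV at *
          ext <;> simp <;> linarith
        have h1' := (C2B h (σ := -1) (Or.inr rfl) hpty (l := (UU T z - UU T y) / 2) (by linarith)
          (by rw [← e]; exact hptz)).2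
        rw [← e, hy0] at h1'
        exact (h1' le_rfl).trans (hM1 y hya hyu hyv.ge (Or.inr hy0))
    · exact absurd (hy z hz hzu) (by linarith)

end Pool.Agent.Lib.H74S
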