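import Pool.Agent.Lib.H74S.C1

set_option autoImplicit false

open Filter Topology Set MeasureTheory
open scoped ContDiff

namespace Pool.Agent.Lib.H74S

open Pool.Agent.Lib.PenroseSph

variable {F r : ℝ × ℝ → ℝ} {Q : Set (ℝ × ℝ)} {a : ℝ} {T : E3 → ℝ}

/-- On every ray the region `good` is a half line whose end point is on one of the two null cones.
Proof: `S = {s | a < s ∧ s • n ∉ good T a u v}` contains the point of `hfib` (there `u <= UU`), and is bounded above by `hinf`
(used with `b = u` and `b = v`). Let `s₀ = sSup S > a`. For `s > s₀`: `s ∉ S`, so `s • n ∈ good`. By continuity `UU T (s₀ n) <= u` and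
`v <= VV T (s₀ n)`. If both inequalities were strict, `s₀ • n` and the points `s • n` with `s` slightly smaller would be in `good`
(an open condition), and then by `C1` (monotonicity) all larger ones, contradiction to the definition of the supremum. -/
theorem C8 (hT : RSl Q a T) {u v : ℝ} (hinf : ∀ b : ℝ, ∃ R, ∀ x : E3, R ≤ ‖x‖ → UU T x < b ∧ b < VV T x)
    {n : E3} (hn : ‖n‖ = 1) (hfib : ∃ s, a < s ∧ u ≤ UU T (s • n)) :
    ∃ s₀, a < s₀ ∧ ((UU T (s₀ • n) = u ∧ v ≤ VV T (s₀ • n)) ∨ (VV T (s₀ • n) = v ∧ UU T (s₀ • n) ≤ u)) ∧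
      ∀ s, s₀ < s → s • n ∈ good T a u v := by
  obtain ⟨R₁, hR₁⟩ := hinf u
  obtain ⟨R₂, hR₂⟩ := hinf v
  have ha := hT.nonneg
  have hnorm : ∀ s : ℝ, a < s → ‖s • n‖ = s := by
    intro s hs
    rw [norm_smul, hn, mul_one, Real.norm_eq_abs, abs_of_pos (by linarith)]
  set S : Set ℝ := {s | a < s ∧ s • n ∉ good T a u v} with hS
  have hne : S.Nonempty := by
    obtain ⟨s, hs, hs'⟩ := hfib
    refine ⟨s, hs, fun h => ?_⟩
    have := h.2.1
    linarith
  have hbdd : BddAbove S := by
    refine ⟨max R₁ R₂, ?_⟩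
    rintro s ⟨hs, hs'⟩
    by_contra hlt
    rw [not_le, max_lt_iff] at hlt
    apply hs'
    refine ⟨by rw [hnorm s hs]; exact hs, ?_, ?_⟩
    · exact (hR₁ (s • n) (by rw [hnorm s hs]; linarith [hlt.1])).1
    · exact (hR₂ (s • n) (by rw [hnorm s hs]; linarith [hlt.2])).2
  have hs₀ : a < sSup S := by
    obtain ⟨s, hs⟩ := hne
    exact lt_of_lt_of_le hs.1 (le_csSup hbdd hs)
  have hgt : ∀ s, sSup S < s → s • n ∈ good T a u v := by
    intro s hs
    by_contra hcon
    have : s ∈ S := ⟨by linarith, hcon⟩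
    have := le_csSup hbdd this
    linarith
  have hopen : IsOpen {x : E3 | a < ‖x‖} := isOpen_lt continuous_const continuous_norm
  have hcont : ContinuousAt (fun s : ℝ => T (s • n)) (sSup S) := by
    have h1 : ContinuousAt T (sSup S • n) := by
      apply (hT.smooth.contDiffAt (hopen.mem_nhds ?_)).continuousAt
      change a < ‖sSup S • n‖
      rw [hnorm _ hs₀]
      exact hs₀
    have h2 : ContinuousAt (fun s : ℝ => s • n) (sSup S) := by fun_prop
    exact ContinuousAt.comp (g := T) (f := fun s : ℝ => s • n) h1 h2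
  have hcn : ContinuousAt (fun s : ℝ => ‖s • n‖) (sSup S) := by fun_prop
  have hcU : ContinuousAt (fun s : ℝ => UU T (s • n)) (sSup S) := hcont.sub hcn
  have hcV : ContinuousAt (fun s : ℝ => VV T (s • n)) (sSup S) := hcont.add hcn
  have hU : UU T (sSup S • n) ≤ u := by
    have h1 : Tendsto (fun s : ℝ => UU T (s • n)) (𝓝[>] (sSup S)) (𝓝 (UU T (sSup S • n))) :=
      hcU.tendsto.mono_left nhdsWithin_le_nhds
    refine le_of_tendsto h1 ?_
    filter_upwards [self_mem_nhdsWithin] with s hs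
    exact (hgt s hs).2.1.le
  have hV : v ≤ VV T (sSup S • n) := by
    have h1 : Tendsto (fun s : ℝ => VV T (s • n)) (𝓝[>] (sSup S)) (𝓝 (VV T (sSup S • n))) :=
      hcV.tendsto.mono_left nhdsWithin_le_nhds
    refine ge_of_tendsto h1 ?_
    filter_upwards [self_mem_nhdsWithin] with s hs
    exact (hgt s hs).2.2.le
  refine ⟨sSup S, hs₀, ?_, hgt⟩
  by_contra hcon
  have hU' : UU T (sSup S • n) < u := by
    refine lt_of_le_of_ne hU fun h => hcon (Or.inl ⟨h, hV⟩)
  have hV' : v < VV T (sSup S • n) := by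
    refine lt_of_le_of_ne hV fun h => hcon (Or.inr ⟨h.symm, hU⟩)
  have hev : ∀ᶠ s in 𝓝 (sSup S), a < s ∧ UU T (s • n) < u ∧ v < VV T (s • n) :=
    (eventually_gt_nhds hs₀).and ((hcU.eventually_lt continuousAt_const hU').and
      (continuousAt_const.eventually_lt hcV hV'))
  obtain ⟨ε, hε, hball⟩ := Metric.eventually_nhds_iff.1 hev
  have hle : sSup S ≤ sSup S - ε := by
    apply csSup_le hne
    intro s hs
    by_contra hlt
    rw [not_le] at hlt
    have hs1 := le_csSup hbdd hs
    have h3 := hball (y := s) (by rw [Real.dist_eq, abs_lt]; constructor <;> linarith)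
    apply hs.2
    exact ⟨by rw [hnorm s hs.1]; exact hs.1, h3.2.1, h3.2.2⟩
  linarith

end Pool.Agent.Lib.H74S
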