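import Pool.Agent.Lib.H74S.C8
import Pool.Agent.Lib.H74S.C9U

set_option autoImplicit false

open Filter Topology Set MeasureTheory
open scoped ContDiff

namespace Pool.Agent.Lib.H74S

open Pool.Agent.Lib.PenroseSph

variable {F r : ℝ × ℝ → ℝ} {Q : Set (ℝ × ℝ)} {a : ℝ} {T : E3 → ℝ}

theorem c9_cont (hT : RSl Q a T) (u v : ℝ) : ContinuousOn (HH T u v) {x : E3 | a < ‖x‖} := by
  unfold HH UU VV
  exact (continuousOn_const.sub (hT.smooth.continuousOn.sub continuous_norm.continuousOn)).mul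
    ((hT.smooth.continuousOn.add continuous_norm.continuousOn).sub continuousOn_const)

theorem c9_ray (hT : RSl Q a T) {u v : ℝ} (hinf : ∀ b : ℝ, ∃ R, ∀ x : E3, R ≤ ‖x‖ → UU T x < b ∧ b < VV T x)
    {n : E3} (hn : ‖n‖ = 1) (hfib : ∃ s, a < s ∧ u ≤ UU T (s • n)) {δ : ℝ} (hδ : 0 < δ) :
    ∃ s : ℝ, 0 < s ∧ s • n ∈ good T a u v ∧ HH T u v (s • n) = δ := by
  obtain ⟨s₀, hs₀, hend, hgood⟩ := C8 hT hinf hn hfib
  have ha : 0 ≤ a := hT.nonneg
  obtain ⟨R₁, hR₁⟩ := hinf (u - 1 - δ)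
  obtain ⟨R₂, hR₂⟩ := hinf (v + 1 + δ)
  set s₁ : ℝ := max (max R₁ R₂) (s₀ + 1) with hs₁
  have h1 : R₁ ≤ s₁ := (le_max_left _ _).trans (le_max_left _ _)
  have h2 : R₂ ≤ s₁ := (le_max_right _ _).trans (le_max_left _ _)
  have h3 : s₀ + 1 ≤ s₁ := le_max_right _ _
  have hnn : ∀ s : ℝ, 0 ≤ s → ‖s • n‖ = s := by
    intro s hs
    rw [norm_smul, Real.norm_of_nonneg hs, hn, mul_one]
  have hcont : ContinuousOn (fun s : ℝ => HH T u v (s • n)) (Icc s₀ s₁) := by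
    refine (c9_cont hT u v).comp (continuous_id.smul continuous_const).continuousOn fun s hs => ?_
    show a < ‖s • n‖
    rw [hnn s (by linarith [hs.1])]
    linarith [hs.1]
  have h0 : HH T u v (s₀ • n) = 0 := by
    unfold HH
    rcases hend with h4 | h4
    · rw [h4.1, sub_self, zero_mul]
    · rw [h4.1, sub_self, mul_zero]
  have hbig : δ < HH T u v (s₁ • n) := by
    have h4 := (hR₁ (s₁ • n) (by rw [hnn s₁ (by linarith)]; exact h1)).1
    have h5 := (hR₂ (s₁ • n) (by rw [hnn s₁ (by linarith)]; exact h2)).2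
    unfold HH
    nlinarith
  have h4 : δ ∈ Icc (HH T u v (s₀ • n)) (HH T u v (s₁ • n)) := ⟨by rw [h0]; exact hδ.le, hbig.le⟩
  obtain ⟨s, hs, hsd⟩ := intermediate_value_Icc (by linarith) hcont h4
  have h5 : HH T u v (s • n) = δ := hsd
  have h6 : s₀ < s := by
    rcases hs.1.eq_or_lt with h7 | h7
    · exfalso
      rw [← h7, h0] at h5
      linarith
    · exact h7
  exact ⟨s, by linarith, hgood s h6, h5⟩

/-- Existence of the level sets.
Proof: for `x ≠ 0` let `n = x / ‖x‖` and `s₀` from `C8`. On `(s₀, ∞)` the function `s ↦ HH T u v (s • n)` is continuous, tends to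
`HH T u v (s₀ • n) = 0` for `s → s₀` and is larger than `δ` for large `s` (choose `b = u - 1 - δ` resp. `b = v + 1 + δ` in `hinf`: the
product of two numbers > 1 + δ is > δ). So by the intermediate value theorem there is `s > s₀ > a >= 0` with the value `δ`; choose
`R x = s` (and `R 0 = 1`). Note `(R x / ‖x‖) • x = R x • n`. -/
theorem C9 (hT : RSl Q a T) {u v : ℝ} (hinf : ∀ b : ℝ, ∃ R, ∀ x : E3, R ≤ ‖x‖ → UU T x < b ∧ b < VV T x)
    (hfib : ∀ n : E3, ‖n‖ = 1 → ∃ s, a < s ∧ u ≤ UU T (s • n)) {δ : ℝ} (hδ : 0 < δ) :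
    ∃ R : E3 → ℝ, Root T a u v δ R := by
  have h1 : ∀ x : E3, ∃ s : ℝ, x ≠ 0 → 0 < s ∧ (s / ‖x‖) • x ∈ good T a u v ∧ HH T u v ((s / ‖x‖) • x) = δ := by
    intro x
    by_cases hx : x = 0
    · exact ⟨1, fun h => absurd hx h⟩
    · have hx0 : ‖x‖ ≠ 0 := norm_ne_zero_iff.2 hx
      have hn : ‖(‖x‖⁻¹) • x‖ = 1 := by
        rw [norm_smul, norm_inv, norm_norm, inv_mul_cancel₀ hx0]
      obtain ⟨s, hs, h2, h3⟩ := c9_ray hT hinf hn (hfib _ hn) hδ
      have e : (s / ‖x‖) • x = s • ((‖x‖⁻¹) • x) := by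
        rw [smul_smul, div_eq_mul_inv]
      refine ⟨s, fun _ => ?_⟩
      rw [e]
      exact ⟨hs, h2, h3⟩
  choose R hR using h1
  exact ⟨R, fun x hx => (hR x hx).1, fun x hx => (hR x hx).2.1, fun x hx => (hR x hx).2.2⟩

end Pool.Agent.Lib.H74S
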