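import Pool.Agent.Lib.H74S.C5
import Pool.Agent.Lib.H74S.C6
import Pool.Agent.Lib.H74S.C7
import Pool.Agent.Lib.H74S.C9
import Pool.Agent.Lib.H74S.C11
import Pool.Agent.Lib.H74S.C12

set_option autoImplicit false

/-!
The reduced core: existence of the enclosing surfaces.
-/

open Filter Topology Set MeasureTheory
open scoped ContDiff

namespace Pool.Agent.Lib.H74S

open Pool.Agent.Lib.PenroseSph

variable {F r : ℝ × ℝ → ℝ} {Q : Set (ℝ × ℝ)} {a : ℝ} {T : E3 → ℝ}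

theorem closed_le (hT : RSl Q a T) {u c : ℝ} (huc : u ≤ c) (hcl : IsClosed {x : E3 | a < ‖x‖ ∧ UU T x ≤ c}) :
    IsClosed {x : E3 | a < ‖x‖ ∧ UU T x ≤ u} := by
  have hcont : ContinuousOn (UU T) {x : E3 | a < ‖x‖ ∧ UU T x ≤ c} :=
    (hT.smooth.continuousOn.sub continuous_norm.continuousOn).mono fun x hx => hx.1
  have h1 := hcont.preimage_isClosed_of_isClosed hcl (isClosed_Iic (a := u))
  convert h1 using 1
  ext x
  constructor
  · rintro ⟨h1, h2⟩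
    exact ⟨⟨h1, h2.trans huc⟩, h2⟩
  · rintro ⟨⟨h1, -⟩, h2⟩
    exact ⟨h1, h2⟩

theorem core (h : Red F r Q) (hT : RSl Q a T) {R₀ E c : ℝ}
    (hfar : ∀ x : E3, R₀ ≤ ‖x‖ → 0 < DD 1 r (pt T x) ∧ DD (-1) r (pt T x) < 0)
    (hfarE : ∀ x : E3, R₀ ≤ ‖x‖ → mass F r (pt T x) ≤ E)
    (hinf : ∀ b : ℝ, ∃ R, ∀ x : E3, R ≤ ‖x‖ → UU T x < b ∧ b < VV T x)
    {q : E3} (hq : a < ‖q‖) (hqc : UU T q = c) (hqr : DD 1 r (pt T q) ≤ 0)
    (hcl : IsClosed {x : E3 | a < ‖x‖ ∧ UU T x ≤ c})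
    (hfib : ∀ n : E3, ‖n‖ = 1 → ∃ s, a < s ∧ c ≤ UU T (s • n)) :
    0 < E ∧ ∀ ε > 0, ∃ R : E3 → ℝ, RadialSurface R ∧ (∀ x, x ≠ 0 → a < R x) ∧
      (∀ x : E3, a < ‖x‖ → c ≤ UU T x → ‖x‖ < R x) ∧
      (∀ n : E3, ‖n‖ = 1 → ∀ e : E3, ∑ i, e i * n i = 0 →
        (fderiv ℝ R n e) ^ 2 ≤ (fderiv ℝ T (R n • n) (fderiv ℝ R n e • n + R n • e)) ^ 2) ∧
      ∫ n : S2, r (pt T (R n • (n : E3))) ^ 2 ∂sm ≤ 16 * Real.pi * E ^ 2 + ε := by
  obtain ⟨x₁, hx₁, hx₁c, hx₁r, hu⟩ := C5 h hT (fun x hx => (hfar x hx).1) hq hqc hqr hcl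
  have hcl' := closed_le hT hx₁c hcl
  obtain ⟨v, hv, hy⟩ := C6 h hT (fun x hx => (hfar x hx).2) (fun b => (hinf b).imp fun R hR x hx => (hR x hx).2)
    (u := UU T x₁) hcl'
  have hz : ∀ z : E3, a < ‖z‖ → (UU T z = UU T x₁ ∧ v ≤ VV T z) ∨ (VV T z = v ∧ UU T z ≤ UU T x₁) →
      r (pt T z) ≤ 2 * E := fun z hz hzb => C7 h hT hfarE hx₁ hx₁r hu hv hy hz hzb
  have hfib' : ∀ n : E3, ‖n‖ = 1 → ∃ s, a < s ∧ UU T x₁ ≤ UU T (s • n) := fun n hn => by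
    obtain ⟨s, hs, hs'⟩ := hfib n hn
    exact ⟨s, hs, hx₁c.trans hs'⟩
  have hE : 0 < E := by
    obtain ⟨s₀, hs₀, hb, -⟩ := C8 hT (u := UU T x₁) (v := v) hinf (n := EuclideanSpace.single 0 1) (by simp)
      (hfib' _ (by simp))
    have hs0 : 0 < s₀ := lt_of_le_of_lt hT.nonneg hs₀
    have hns : a < ‖s₀ • (EuclideanSpace.single 0 1 : E3)‖ := by
      rw [norm_smul, Real.norm_of_nonneg hs0.le]; simpa using hs₀
    have h1 := hz _ hns hb
    have h2 := h.r_pos _ (hT.mem _ hns)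
    unfold pt at h1
    linarith
  refine ⟨hE, fun ε hε => ?_⟩
  choose R hR using fun k : ℕ => C9 hT (u := UU T x₁) (v := v) hinf hfib' (δ := 1 / ((k : ℝ) + 1)) (by positivity)
  obtain ⟨k, hk⟩ := C12 h hT hinf hfib' hcl' hz hR hε
  have hS := C10 hT (hR k)
  have hmem : ∀ x : E3, x ≠ 0 → a < R k x ∧ UU T ((R k x / ‖x‖) • x) < UU T x₁ := by
    intro x hx
    have h1 := (hR k).mem x hx
    have h2 : ‖(R k x / ‖x‖) • x‖ = R k x := by
      rw [norm_smul, norm_div, norm_norm, div_mul_cancel₀ _ (norm_ne_zero_iff.mpr hx),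
        Real.norm_of_nonneg ((hR k).pos x hx).le]
    exact ⟨by rw [← h2]; exact h1.1, h1.2.1⟩
  refine ⟨R k, hS, fun x hx => (hmem x hx).1, ?_, fun n hn e he => C11 hT (hR k) hS hn he, ?_⟩
  · intro x hx hcx
    have hx0 : x ≠ 0 := by
      rintro rfl
      rw [norm_zero] at hx
      exact absurd hx (not_lt.2 hT.nonneg)
    have hxn : 0 < ‖x‖ := norm_pos_iff.mpr hx0
    obtain ⟨h1, h2⟩ := hmem x hx0
    by_contra hle
    push Not at hle
    rcases hle.eq_or_lt with heq | hlt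
    · rw [heq, div_self hxn.ne', one_smul] at h2
      linarith
    · -- the point x lies further out on the ray
      have hc : 1 < ‖x‖ / R k x := (one_lt_div ((hR k).pos x hx0)).2 hlt
      have h3 := (C1 hT (x := (R k x / ‖x‖) • x) (by
        have h2 : ‖(R k x / ‖x‖) • x‖ = R k x := by
          rw [norm_smul, norm_div, norm_norm, div_mul_cancel₀ _ (norm_ne_zero_iff.mpr hx0),
            Real.norm_of_nonneg ((hR k).pos x hx0).le]
        rw [h2]; exact h1) hc).1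
      have h4 : (‖x‖ / R k x) • (R k x / ‖x‖) • x = x := by
        rw [smul_smul, div_mul_div_comm, mul_comm, div_self (mul_pos ((hR k).pos x hx0) hxn).ne', one_smul]
      rw [h4] at h3
      linarith
  · refine hk.trans (le_of_eq ?_)
    ring

end Pool.Agent.Lib.H74S
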