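import Pool.Agent.Lib.PenroseSph.System

set_option autoImplicit false

/-!
Spherically symmetric space-times, arbitrary (not necessarily symmetric) spacelike hypersurfaces in them, the induced initial
data, surfaces and their area.
-/

open Filter Topology Set MeasureTheory
open scoped ContDiff

namespace Pool.Agent.Lib.H74S

open Pool.Agent.Lib.PenroseSph

/-- Coordinates `(t, x1, x2, x3)` of space-time. -/
abbrev E4 := Fin 4 → ℝ

/-- A two-tensor on space-time, given by its components in the coordinates. -/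
abbrev Tens4 := E4 → Matrix (Fin 4) (Fin 4) ℝ

/-- The partial derivative in the direction of the k-th coordinate of space-time. -/
noncomputable def pd4 (k : Fin 4) (f : E4 → ℝ) (p : E4) : ℝ := fderiv ℝ f p (Pi.single k 1)

/-- Christoffel symbols (upper index c, lower indices a and b) of the space-time metric G. -/
noncomputable def chr4 (G : Tens4) (c a b : Fin 4) (p : E4) : ℝ :=
  (1 / 2) * ∑ d, (G p)⁻¹ c d *
    (pd4 a (fun q => G q b d) p + pd4 b (fun q => G q a d) p - pd4 d (fun q => G q a b) p)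

/-- Ricci curvature of G. -/
noncomputable def ric4 (G : Tens4) (a b : Fin 4) (p : E4) : ℝ :=
  ∑ c, (pd4 c (chr4 G c a b) p - pd4 b (chr4 G c a c) p
    + ∑ d, (chr4 G c c d p * chr4 G d a b p - chr4 G c b d p * chr4 G d a c p))

/-- Scalar curvature of G. -/
noncomputable def scal4 (G : Tens4) (p : E4) : ℝ := ∑ a, ∑ b, (G p)⁻¹ a b * ric4 G a b p

/-- The Einstein tensor of G at p, evaluated on the vectors X and Y. -/
noncomputable def ein4 (G : Tens4) (p X Y : E4) : ℝ :=
  ∑ a, ∑ b, (ric4 G a b p - (1 / 2) * scal4 G p * G p a b) * X a * Y b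

/-- The space part of a point of space-time. -/
noncomputable def sp (p : E4) : E3 := WithLp.toLp 2 (fun i : Fin 3 => p i.succ)

/-- The spherically symmetric space-time metric `- F dt^2 + F dρ^2 + r^2 dω^2`, where `ρ = |x|`, the functions `F` and `r`
depend on `(t, ρ)` and `dω^2` is the metric of the unit sphere. -/
noncomputable def sphG (F r : ℝ × ℝ → ℝ) : Tens4 := fun p => Matrix.of fun a b =>
  if a = 0 ∧ b = 0 then -F (p 0, ‖sp p‖) else if a = 0 ∨ b = 0 then 0 else
    F (p 0, ‖sp p‖) * (p a * p b / ‖sp p‖ ^ 2)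
      + r (p 0, ‖sp p‖) ^ 2 / ‖sp p‖ ^ 2 * ((if a = b then 1 else 0) - p a * p b / ‖sp p‖ ^ 2)

/-- The radial null vector `∂_t + σ ∂_ρ` (σ = 1: outgoing, σ = -1: ingoing). -/
noncomputable def radN (σ : ℝ) (p : E4) : E4 := fun a => if a = 0 then 1 else σ * (p a / ‖sp p‖)

/-- A spherically symmetric space-time: the points `(t, x)` with `(t, |x|)` in the open set `Q`, metric
`- F dt^2 + F dρ^2 + r^2 dω^2`. The set `Q` contains with two points on a radial null line also the segment between them. The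
energy condition: the Einstein tensor is nonnegative on pairs of radial future null vectors (a part of the dominant energy
condition). -/
structure SphSpacetime (F r : ℝ × ℝ → ℝ) (Q : Set (ℝ × ℝ)) : Prop where
  isOpen : IsOpen Q
  pos : ∀ p ∈ Q, 0 < p.2
  null_convex : ∀ p ∈ Q, ∀ q ∈ Q, (p.1 - p.2 = q.1 - q.2 ∨ p.1 + p.2 = q.1 + q.2) → segment ℝ p q ⊆ Q
  smooth_F : ContDiffOn ℝ ∞ F Q
  smooth_r : ContDiffOn ℝ ∞ r Q
  F_pos : ∀ p ∈ Q, 0 < F p
  r_pos : ∀ p ∈ Q, 0 < r p
  energy : ∀ p : E4, (p 0, ‖sp p‖) ∈ Q → ∀ σ τ : ℝ, (σ = 1 ∨ σ = -1) → (τ = 1 ∨ τ = -1) →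
    0 ≤ ein4 (sphG F r) p (radN σ p) (radN τ p)

/-- The point of the hypersurface `t = T(x)` above x. -/
noncomputable def emb (T : E3 → ℝ) (x : E3) : E4 := ![T x, x 0, x 1, x 2]

/-- The coordinate tangent vector (index i) of the hypersurface `t = T(x)`: derivative of the embedding. -/
noncomputable def tang (T : E3 → ℝ) (i : Fin 3) (x : E3) : E4 := fun a => pd i (fun y => emb T y a) x

/-- The metric induced on the hypersurface `t = T(x)`. -/
noncomputable def indM (G : Tens4) (T : E3 → ℝ) : Tens := fun x => Matrix.of fun i j =>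
  ∑ a, ∑ b, G (emb T x) a b * tang T i x a * tang T j x b

/-- The differential of `t - T(x)`, a conormal of the hypersurface. -/
noncomputable def conorm (T : E3 → ℝ) (x : E3) : E4 := ![1, -pd 0 T x, -pd 1 T x, -pd 2 T x]

/-- The length of that conormal (which is timelike): square root of `- G^(-1)(dν, dν)`. -/
noncomputable def nrm (G : Tens4) (T : E3 → ℝ) (x : E3) : ℝ :=
  Real.sqrt (-∑ a, ∑ b, (G (emb T x))⁻¹ a b * conorm T x a * conorm T x b)

/-- The future unit normal of the hypersurface `t = T(x)`. -/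
noncomputable def unitN (G : Tens4) (T : E3 → ℝ) (x : E3) : E4 :=
  fun a => -(∑ b, (G (emb T x))⁻¹ a b * conorm T x b) / nrm G T x

/-- The second fundamental form of the hypersurface `t = T(x)`: `K_ij = <D_i N, ∂_j> = - <N, D_i ∂_j>`, where `N` is the future
unit normal and `D` is the covariant derivative of G. -/
noncomputable def sff (G : Tens4) (T : E3 → ℝ) : Tens := fun x => Matrix.of fun i j =>
  (∑ a, conorm T x a * (pd i (fun y => tang T j y a) x
    + ∑ b, ∑ c, chr4 G a b c (emb T x) * tang T i x b * tang T j x c)) / nrm G T x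

/-- The part `a < |x|` of the hypersurface `t = T(x)` lies in the space-time and is spacelike. -/
structure Slice (F r : ℝ × ℝ → ℝ) (Q : Set (ℝ × ℝ)) (a : ℝ) (T : E3 → ℝ) : Prop where
  nonneg : 0 ≤ a
  smooth : ContDiffOn ℝ ∞ T {x | a < ‖x‖}
  mem : ∀ x : E3, a < ‖x‖ → (T x, ‖x‖) ∈ Q
  spacelike : ∀ x : E3, a < ‖x‖ → ∀ v : Fin 3 → ℝ, v ≠ 0 →
    0 < ∑ i, ∑ j, indM (sphG F r) T x i j * v i * v j

/-- The hypersurface is asymptotically flat: along it `dT = O(1/|x|)`, `ddT = O(1/|x|^2)`, `F = 1 + O(1/|x|)`,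
`r = |x| + O(1)` and the first derivatives of `F` and of `r - ρ` are `O(1/|x|^2)` and `O(1/|x|)`. -/
def AsympFlat (F r : ℝ × ℝ → ℝ) (T : E3 → ℝ) : Prop :=
  ∃ C R₀ : ℝ, ∀ x : E3, R₀ ≤ ‖x‖ →
    (∀ i, |pd i T x| ≤ C / ‖x‖) ∧ (∀ i j, |pd i (pd j T) x| ≤ C / ‖x‖ ^ 2) ∧
    |F (T x, ‖x‖) - 1| ≤ C / ‖x‖ ∧ |r (T x, ‖x‖) - ‖x‖| ≤ C ∧
    |fderiv ℝ F (T x, ‖x‖) (1, 0)| ≤ C / ‖x‖ ^ 2 ∧ |fderiv ℝ F (T x, ‖x‖) (0, 1)| ≤ C / ‖x‖ ^ 2 ∧
    |fderiv ℝ r (T x, ‖x‖) (1, 0)| ≤ C / ‖x‖ ∧ |fderiv ℝ r (T x, ‖x‖) (0, 1) - 1| ≤ C / ‖x‖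

/-- Scalar product of the vectors v and w at x. -/
noncomputable def ip (g : Tens) (x v w : E3) : ℝ := ∑ i, ∑ j, g x i j * v i * w j

/-- Squared area of the parallelogram spanned by the vectors v and w at x. -/
noncomputable def parSq (g : Tens) (x v w : E3) : ℝ := ip g x v v * ip g x w w - ip g x v w ^ 2

/-- The rotation field `e_i × n`. -/
noncomputable def rotv (i : Fin 3) (n : E3) : E3 :=
  n (i + 1) • EuclideanSpace.single (i + 2) (1 : ℝ) - n (i + 2) • EuclideanSpace.single (i + 1) (1 : ℝ)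

/-- Area element at the point `Ψ n` of the surface `Ψ (S2)`, with respect to the round area of the unit sphere: the squares of
the areas of the images of the three parallelograms spanned by two of the rotation fields `e_i × n` (whose own areas are the
numbers `|n_k|`) are added. -/
noncomputable def areaDens (g : Tens) (Ψ : E3 → E3) (n : E3) : ℝ :=
  Real.sqrt (∑ i : Fin 3, parSq g (Ψ n) (fderiv ℝ Ψ n (rotv i n)) (fderiv ℝ Ψ n (rotv (i + 1) n)))

/-- Area of the surface `Ψ (S2)`. -/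
noncomputable def area (g : Tens) (Ψ : E3 → E3) : ℝ := ∫ n : S2, areaDens g Ψ n ∂sm

/-- The function R on the nonzero vectors describes a smooth closed surface: the star-shaped surface `|x| = R(x)`, that is
`{R(n) n : |n| = 1}`. -/
structure RadialSurface (R : E3 → ℝ) : Prop where
  smooth : ContDiffOn ℝ ∞ R {x | x ≠ 0}
  hom : ∀ x : E3, x ≠ 0 → ∀ c : ℝ, 0 < c → R (c • x) = R x
  pos : ∀ x : E3, x ≠ 0 → 0 < R x

/-- The map `y ↦ R(y) y`, which maps the unit sphere onto the surface `|x| = R(x)`. -/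
noncomputable def rad (R : E3 → ℝ) : E3 → E3 := fun y => R y • y

/-- The open region enclosed by the surface `|x| = R(x)`. -/
def inside (R : E3 → ℝ) : Set E3 := {x | x = 0 ∨ ‖x‖ < R x}

end Pool.Agent.Lib.H74S
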