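import Pool.Agent.Lib.H74S.A4

set_option autoImplicit false

open Filter Topology Set MeasureTheory
open scoped ContDiff

namespace Pool.Agent.Lib.H74S

open Pool.Agent.Lib.PenroseSph

variable {F r : ℝ × ℝ → ℝ} {Q : Set (ℝ × ℝ)} {a : ℝ} {T : E3 → ℝ}

/-- Derivative of the induced metric: product and chain rule
(`pd k (fun y => G (emb T y) b c) x = ∑ d, pd4 d (fun q => G q b c) (emb T x) * tang T k x d`). -/
theorem GS1 {G : Tens4} {x : E3} (hG : Geom G T x) (k i j : Fin 3) : pd k (fun y => indM G T y i j) x =
    ∑ b, ∑ c, ((∑ d, pd4 d (fun q => G q b c) (emb T x) * tang T k x d) * tang T i x b * tang T j x c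
      + G (emb T x) b c * pd k (fun y => tang T i y b) x * tang T j x c
      + G (emb T x) b c * tang T i x b * pd k (fun y => tang T j y c) x) := by
  sorry

end Pool.Agent.Lib.H74S
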