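import Pool.Agent.Lib.H74S.GS1

set_option autoImplicit false

open Filter Topology Set MeasureTheory
open scoped ContDiff

namespace Pool.Agent.Lib.H74S

open Pool.Agent.Lib.PenroseSph

variable {F r : ℝ × ℝ → ℝ} {Q : Set (ℝ × ℝ)} {a : ℝ} {T : E3 → ℝ}

/-- The tangential part of the covariant derivative is the covariant derivative of the induced metric.
Proof: the induced metric `g` is positive definite, so invertible, and `∑ k, g l k * chr g k i j = (1/2) (∂_i g_jl + ∂_j g_il - ∂_l g_ij)`.
Insert `GS1`. The terms with second derivatives: by the symmetry `pd i (tang j) = pd j (tang i)` (`A4`) they give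
`∑ G b c * tang l b * pd i (tang j c)`. The terms with derivatives of `G` give, after renaming, `∑ tang l b * Γ_(b,cd) tang i c * tang j d` with
`Γ_(b,cd) = (1/2)(∂_c G_db + ∂_d G_cb - ∂_b G_cd) = ∑ e, G b e * chr4 e c d` (`G` invertible and symmetric). -/
theorem GS2 {G : Tens4} {x : E3} (hG : Geom G T x) (i j l : Fin 3) :
    ∑ k, indM G T x l k * chr (indM G T) k i j x = ∑ b, ∑ c, G (emb T x) b c * tang T l x b * DT G T x i j c := by
  sorry

end Pool.Agent.Lib.H74S
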