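import Pool.Agent.Lib.H74S.Red

set_option autoImplicit false

/-!
Auxiliary notation for the geometry of spherically symmetric space-times in the coordinates `(t, x)`.
-/

open Filter Topology Set MeasureTheory
open scoped ContDiff

namespace Pool.Agent.Lib.H74S

open Pool.Agent.Lib.PenroseSph

/-- The covector `dρ`. -/
noncomputable def nv (p : E4) (a : Fin 4) : ℝ := if a = 0 then 0 else p a / ‖sp p‖

/-- The covector `dt`. -/
noncomputable def tv (a : Fin 4) : ℝ := if a = 0 then 1 else 0

/-- The projection on the tangent planes of the spheres. -/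
noncomputable def pv (p : E4) (a b : Fin 4) : ℝ :=
  if a = 0 ∨ b = 0 then 0 else (if a = b then 1 else 0) - nv p a * nv p b

/-- The function `r^2 / ρ^2`. -/
noncomputable def Bf (r : ℝ × ℝ → ℝ) (q : ℝ × ℝ) : ℝ := r q ^ 2 / q.2 ^ 2

/-- The point of the `(t, ρ)` plane below p. -/
noncomputable def qp (p : E4) : ℝ × ℝ := (p 0, ‖sp p‖)

/-- The differential of `σ t - ρ`. -/
noncomputable def fv (σ : ℝ) (p : E4) (a : Fin 4) : ℝ := σ * tv a - nv p a

/-- The covariant derivative `D_i ∂_j` of the coordinate tangent vectors of the hypersurface `t = T(x)`. -/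
noncomputable def DT (G : Tens4) (T : E3 → ℝ) (x : E3) (i j : Fin 3) (a : Fin 4) : ℝ :=
  pd i (fun y => tang T j y a) x + ∑ b, ∑ c, chr4 G a b c (emb T x) * tang T i x b * tang T j x c

/-- Standing assumptions for a metric G and the hypersurface `t = T(x)` near the point x: G is symmetric, differentiable and
invertible at the point above x, `T` is smooth near x, the induced metric is positive definite and the conormal timelike. -/
structure Geom (G : Tens4) (T : E3 → ℝ) (x : E3) : Prop where
  symm : ∀ q a b, G q a b = G q b a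
  diff : ∀ a b, DifferentiableAt ℝ (fun q => G q a b) (emb T x)
  unit : IsUnit (G (emb T x)).det
  smooth : ContDiffAt ℝ ∞ T x
  pos : ∀ v : Fin 3 → ℝ, v ≠ 0 → 0 < ∑ i, ∑ j, indM G T x i j * v i * v j
  lapse : 0 < -∑ a, ∑ b, (G (emb T x))⁻¹ a b * conorm T x a * conorm T x b

end Pool.Agent.Lib.H74S
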