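import Pool.Agent.Lib.H74S.Defs

set_option autoImplicit false

/-!
The reduced setting: functions of `p = (t, ρ)`, null derivatives, the mass function, slices.
-/

open Filter Topology Set MeasureTheory
open scoped ContDiff

namespace Pool.Agent.Lib.H74S

open Pool.Agent.Lib.PenroseSph

/-- The derivative in the null direction `(1, σ)`. -/
noncomputable def DD (σ : ℝ) (f : ℝ × ℝ → ℝ) (p : ℝ × ℝ) : ℝ := fderiv ℝ f p (1, σ)

/-- The reduced conditions on `F`, `r`. -/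
structure Red (F r : ℝ × ℝ → ℝ) (Q : Set (ℝ × ℝ)) : Prop where
  isOpen : IsOpen Q
  pos : ∀ p ∈ Q, 0 < p.2
  null_convex : ∀ p ∈ Q, ∀ q ∈ Q, (p.1 - p.2 = q.1 - q.2 ∨ p.1 + p.2 = q.1 + q.2) → segment ℝ p q ⊆ Q
  smooth_F : ContDiffOn ℝ ∞ F Q
  smooth_r : ContDiffOn ℝ ∞ r Q
  F_pos : ∀ p ∈ Q, 0 < F p
  r_pos : ∀ p ∈ Q, 0 < r p
  ray : ∀ p ∈ Q, ∀ σ : ℝ, (σ = 1 ∨ σ = -1) → DD σ (DD σ r) p ≤ DD σ F p / F p * DD σ r p
  mix : ∀ p ∈ Q, 0 ≤ F p + DD 1 r p * DD (-1) r p + r p * DD 1 (DD (-1) r) p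

/-- The reduced conditions on the function `T`. -/
structure RSl (Q : Set (ℝ × ℝ)) (a : ℝ) (T : E3 → ℝ) : Prop where
  nonneg : 0 ≤ a
  smooth : ContDiffOn ℝ ∞ T {x | a < ‖x‖}
  mem : ∀ x : E3, a < ‖x‖ → (T x, ‖x‖) ∈ Q
  steep : ∀ x : E3, a < ‖x‖ → |∑ i, x i * pd i T x| < ‖x‖

/-- The Misner-Sharp mass. -/
noncomputable def mass (F r : ℝ × ℝ → ℝ) (p : ℝ × ℝ) : ℝ := r p / 2 * (1 + DD 1 r p * DD (-1) r p / F p)

/-- The point of `Q` below x. -/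
noncomputable def pt (T : E3 → ℝ) (x : E3) : ℝ × ℝ := (T x, ‖x‖)

/-- The null coordinate `t - ρ` on the slice. -/
noncomputable def UU (T : E3 → ℝ) (x : E3) : ℝ := T x - ‖x‖

/-- The null coordinate `t + ρ` on the slice. -/
noncomputable def VV (T : E3 → ℝ) (x : E3) : ℝ := T x + ‖x‖

/-- The region outside of the two null cones `t - ρ = u` and `t + ρ = v`. -/
def good (T : E3 → ℝ) (a u v : ℝ) : Set E3 := {x | a < ‖x‖ ∧ UU T x < u ∧ v < VV T x}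

/-- The function whose level sets are the smoothed surfaces. -/
noncomputable def HH (T : E3 → ℝ) (u v : ℝ) (x : E3) : ℝ := (u - UU T x) * (VV T x - v)

/-- `R` describes the level set `HH = δ` in the region `good`. -/
structure Root (T : E3 → ℝ) (a u v δ : ℝ) (R : E3 → ℝ) : Prop where
  pos : ∀ x : E3, x ≠ 0 → 0 < R x
  mem : ∀ x : E3, x ≠ 0 → (R x / ‖x‖) • x ∈ good T a u v
  eq : ∀ x : E3, x ≠ 0 → HH T u v ((R x / ‖x‖) • x) = δ

end Pool.Agent.Lib.H74S
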